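import Pool.Agent.Helper717.LT.Defs
import Pool.Agent.Helper717.LT.P_specS
import Pool.Agent.Helper717.LT.P_schur
import Pool.Agent.Helper717.LT.P_A_point
import Pool.Agent.Helper717.LT.P_A_main

/-! Pointwise matrix inequality for the calibration `Φ = - tr (R p(B) R)`. -/

set_option autoImplicit false

open MeasureTheory Set Filter Topology Real
open scoped Matrix

namespace Pool.Agent.W2helper1.LT

open LTd

/-- `p(B)` -/
noncomputable def pm {n : ℕ} (A : Finset ℕ) (a : ℕ → ℝ) (B : Mat n) : Mat n := ∑ q ∈ A, a q • B ^ q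

/-- the derivative of `p(B)` in the direction `R` -/
noncomputable def dpm {n : ℕ} (A : Finset ℕ) (a : ℕ → ℝ) (B R : Mat n) : Mat n :=
  ∑ q ∈ A, a q • dpow B R q

/-- the values of the polynomial -/
noncomputable def pv (A : Finset ℕ) (a : ℕ → ℝ) (s : ℝ) : ℝ := ∑ q ∈ A, a q * s ^ q

/-- the divided differences of the polynomial -/
noncomputable def pd2 (A : Finset ℕ) (a : ℕ → ℝ) (s r : ℝ) : ℝ := ∑ q ∈ A, a q * gs q s r

theorem pm_diag {n : ℕ} (A : Finset ℕ) (a : ℕ → ℝ) (V : Mat n) (e : Fin n → ℝ) (hV : V * Vᵀ = 1)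
    (hV' : Vᵀ * V = 1) :
    pm A a (V * Matrix.diagonal e * Vᵀ) = V * Matrix.diagonal (fun i => pv A a (e i)) * Vᵀ := by
  unfold pm
  have h1 : ∀ q, (V * Matrix.diagonal e * Vᵀ) ^ q = V * Matrix.diagonal (fun i => e i ^ q) * Vᵀ :=
    fun q => A_trace1_pow V e hV hV' q
  have h2 : (Matrix.diagonal (fun i => pv A a (e i)) : Mat n) =
      ∑ q ∈ A, a q • Matrix.diagonal (fun i => e i ^ q) := by
    ext i j
    rw [Matrix.sum_apply]
    by_cases hij : i = j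
    · subst hij
      simp only [Matrix.diagonal_apply_eq, Matrix.smul_apply, smul_eq_mul, pv]
    · simp only [Matrix.diagonal_apply_ne _ hij, Matrix.smul_apply, smul_eq_mul, mul_zero,
        Finset.sum_const_zero]
  rw [h2, Matrix.mul_sum, Matrix.sum_mul]
  refine Finset.sum_congr rfl fun q _ => ?_
  rw [h1, Matrix.mul_smul, Matrix.smul_mul]

theorem tr_dpm {n : ℕ} (A : Finset ℕ) (a : ℕ → ℝ) (V R : Mat n) (e : Fin n → ℝ)
    (hV : V * Vᵀ = 1) (hV' : Vᵀ * V = 1) :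
    (R * dpm A a (V * Matrix.diagonal e * Vᵀ) R * R).trace =
      ∑ i, ∑ j, ∑ k, (Vᵀ * R * V) i j * (Vᵀ * R * V) j k * (Vᵀ * R * V) k i *
        pd2 A a (e j) (e k) := by
  unfold dpm
  rw [Matrix.mul_sum, Matrix.sum_mul, Matrix.trace_sum]
  have h1 : ∀ q ∈ A, (R * a q • dpow (V * Matrix.diagonal e * Vᵀ) R q * R).trace =
      ∑ i, ∑ j, ∑ k, (Vᵀ * R * V) i j * (Vᵀ * R * V) j k * (Vᵀ * R * V) k i *
        (a q * gs q (e j) (e k)) := by
    intro q _
    have h2 := A_trace1 V R e hV hV' q 0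
    rw [pow_zero, Matrix.mul_one] at h2
    rw [Matrix.mul_smul, Matrix.smul_mul, Matrix.trace_smul, h2, smul_eq_mul, Finset.mul_sum]
    refine Finset.sum_congr rfl fun i _ => ?_
    rw [Finset.mul_sum]
    refine Finset.sum_congr rfl fun j _ => ?_
    rw [Finset.mul_sum]
    refine Finset.sum_congr rfl fun k _ => ?_
    rw [pow_zero]
    ring
  rw [Finset.sum_congr rfl h1, Finset.sum_comm]
  refine Finset.sum_congr rfl fun i _ => ?_
  rw [Finset.sum_comm]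
  refine Finset.sum_congr rfl fun j _ => ?_
  rw [Finset.sum_comm]
  refine Finset.sum_congr rfl fun k _ => ?_
  rw [pd2, Finset.mul_sum]

theorem tr_pm {n : ℕ} (A : Finset ℕ) (a : ℕ → ℝ) (V R : Mat n) (e : Fin n → ℝ)
    (hV : V * Vᵀ = 1) (hV' : Vᵀ * V = 1) :
    (pm A a (V * Matrix.diagonal e * Vᵀ) * (R * R * R) * pm A a (V * Matrix.diagonal e * Vᵀ)).trace =
      ∑ i, ∑ j, ∑ k, (Vᵀ * R * V) i j * (Vᵀ * R * V) j k * (Vᵀ * R * V) k i *
        pv A a (e i) ^ 2 := by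
  rw [pm_diag A a V e hV hV']
  set D : Mat n := Matrix.diagonal (fun i => pv A a (e i)) with hD
  set Rh : Mat n := Vᵀ * R * V with hRh
  have h1 : V * D * Vᵀ * (R * R * R) * (V * D * Vᵀ) = V * (D * (Rh * Rh * Rh) * D) * Vᵀ := by
    have h2 : Rh * Rh * Rh = Vᵀ * (R * R * R) * V := by
      calc Rh * Rh * Rh = Vᵀ * R * (V * Vᵀ) * R * (V * Vᵀ) * R * V := by
            rw [hRh]; simp only [Matrix.mul_assoc]
        _ = _ := by rw [hV]; simp only [Matrix.mul_assoc, Matrix.one_mul]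
    rw [h2]
    simp only [Matrix.mul_assoc]
  rw [h1, Matrix.trace_mul_comm, ← Matrix.mul_assoc, hV', Matrix.one_mul]
  unfold Matrix.trace
  refine Finset.sum_congr rfl fun i _ => ?_
  rw [Matrix.diag_apply, hD, Matrix.mul_diagonal, Matrix.diagonal_mul, Matrix.mul_apply]
  have h3 : ∑ k, (Rh * Rh) i k * Rh k i = ∑ j, ∑ k, Rh i j * Rh j k * Rh k i := by
    rw [Finset.sum_comm]
    refine Finset.sum_congr rfl fun k _ => ?_
    rw [Matrix.mul_apply, Finset.sum_mul]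
  rw [h3, Finset.mul_sum, Finset.sum_mul]
  refine Finset.sum_congr rfl fun j _ => ?_
  rw [Finset.mul_sum, Finset.sum_mul]
  refine Finset.sum_congr rfl fun k _ => ?_
  ring

/-- cyclic symmetrisation of the sums -/
theorem sum_cyc {n : ℕ} (M : Mat n) (G : Fin n → ℝ) :
    ∑ i, ∑ j, ∑ k, M i j * M j k * M k i * G i = ∑ i, ∑ j, ∑ k, M i j * M j k * M k i * G j := by
  have h1 : ∑ i, ∑ j, ∑ k, M i j * M j k * M k i * G j =
      ∑ j, ∑ k, ∑ i, M i j * M j k * M k i * G j := by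
    rw [Finset.sum_comm]
    refine Finset.sum_congr rfl fun j _ => ?_
    rw [Finset.sum_comm]
  rw [h1]
  refine Finset.sum_congr rfl fun i _ => Finset.sum_congr rfl fun j _ =>
    Finset.sum_congr rfl fun k _ => ?_
  ring

theorem sum_cyc' {n : ℕ} (M : Mat n) (G : Fin n → ℝ) :
    ∑ i, ∑ j, ∑ k, M i j * M j k * M k i * G i = ∑ i, ∑ j, ∑ k, M i j * M j k * M k i * G k := by
  have h1 : ∑ i, ∑ j, ∑ k, M i j * M j k * M k i * G k =
      ∑ k, ∑ i, ∑ j, M i j * M j k * M k i * G k := by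
    have h2 : ∀ i, ∑ j, ∑ k, M i j * M j k * M k i * G k =
        ∑ k, ∑ j, M i j * M j k * M k i * G k := fun i => Finset.sum_comm
    rw [Finset.sum_congr rfl fun i _ => h2 i, Finset.sum_comm]
  rw [h1]
  refine Finset.sum_congr rfl fun i _ => Finset.sum_congr rfl fun j _ =>
    Finset.sum_congr rfl fun k _ => ?_
  ring

/-- the pointwise inequality -/
theorem point {n : ℕ} {κ ε : ℝ} (hε : 0 ≤ ε) (A : Finset ℕ) (a : ℕ → ℝ) (D : ℝ → ℝ → ℝ)
    (G : ℝ → ℝ)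
    (hsym : ∀ s r, D s r = D r s)
    (hK : ∀ (m : ℕ) (e c : Fin m → ℝ), (∀ i, e i ∈ Icc (-(1 / 2) : ℝ) (1 / 2)) →
      0 ≤ ∑ i, ∑ j, c i * c j * (D (e i) (e j) - (G (e i) + G (e j)) / 2 - κ))
    (hA1 : ∀ s ∈ Icc (-(1 / 2) : ℝ) (1 / 2), ∀ r ∈ Icc (-(1 / 2) : ℝ) (1 / 2),
      |pd2 A a s r - D s r| ≤ ε)
    (hA2 : ∀ s ∈ Icc (-(1 / 2) : ℝ) (1 / 2), |pv A a s ^ 2 - G s| ≤ ε)
    (B R : Mat n) (hB : ∀ i j, B i j = B j i) (hB1 : PSD ((1 / 2 : ℝ) • 1 + B))
    (hB2 : PSD ((1 / 2 : ℝ) • 1 - B)) (hR : PSD R) :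
    (κ - 2 * ε * n ^ 5) * (R * R * R).trace ≤
      (R * dpm A a B R * R).trace - (pm A a B * (R * R * R) * pm A a B).trace := by
  obtain ⟨V, e, hV, hV', rfl⟩ := specS hB
  set Rh : Mat n := Vᵀ * R * V with hRh
  have hRhP : PSD Rh := ap_psd R V hR
  have hD : Vᵀ * (V * Matrix.diagonal e * Vᵀ) * V = Matrix.diagonal e := by
    calc Vᵀ * (V * Matrix.diagonal e * Vᵀ) * V =
        (Vᵀ * V) * Matrix.diagonal e * (Vᵀ * V) := by simp only [Matrix.mul_assoc]
      _ = Matrix.diagonal e := by rw [hV', Matrix.one_mul, Matrix.mul_one]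
  have hI : Vᵀ * ((1 / 2 : ℝ) • (1 : Mat n)) * V = (1 / 2 : ℝ) • (1 : Mat n) := by
    rw [Matrix.mul_smul, Matrix.mul_one, Matrix.smul_mul, hV']
  have he : ∀ i, e i ∈ Icc (-(1 / 2) : ℝ) (1 / 2) := by
    intro i
    constructor
    · have h1 := ap_diag _ (ap_psd _ V hB1) i
      rw [Matrix.mul_add, Matrix.add_mul, hD, hI] at h1
      simp only [Matrix.add_apply, Matrix.smul_apply, Matrix.one_apply_eq,
        Matrix.diagonal_apply_eq, smul_eq_mul, mul_one] at h1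
      linarith
    · have h1 := ap_diag _ (ap_psd _ V hB2) i
      rw [Matrix.mul_sub, Matrix.sub_mul, hD, hI] at h1
      simp only [Matrix.sub_apply, Matrix.smul_apply, Matrix.one_apply_eq,
        Matrix.diagonal_apply_eq, smul_eq_mul, mul_one] at h1
      linarith
  rw [tr_dpm A a V R e hV hV', tr_pm A a V R e hV hV', ← hRh]
  have e4 : (R * R * R).trace = ∑ i, ∑ j, ∑ k, Rh i j * Rh j k * Rh k i := by
    rw [← ap_tr2 V R hV, ap_tr]
  -- positivity of the exact expression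
  have hpos : 0 ≤ ∑ i, ∑ j, ∑ k, Rh i j * Rh j k * Rh k i *
      (D (e j) (e k) - (G (e j) + G (e k)) / 2 - κ) := by
    refine Finset.sum_nonneg fun i _ => ?_
    have hKP : PSD (Matrix.of fun j k => D (e j) (e k) - (G (e j) + G (e k)) / 2 - κ : Mat n) := by
      refine ⟨fun j k => ?_, fun v => ?_⟩
      · rw [Matrix.of_apply, Matrix.of_apply, hsym]
        ring
      · exact hK n e v he
    have h1 := (schur hRhP hKP).2 (fun j => Rh i j)
    refine h1.trans_eq ?_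
    refine Finset.sum_congr rfl fun j _ => Finset.sum_congr rfl fun k _ => ?_
    rw [Matrix.of_apply, Matrix.of_apply, hRhP.1 k i]
    ring
  have hG1 := sum_cyc Rh (fun i => G (e i))
  have hG2 := sum_cyc' Rh (fun i => G (e i))
  have hx1 := A_err Rh hRhP (fun i j k => pd2 A a (e j) (e k) - D (e j) (e k)) ε hε
    (fun i j k => hA1 _ (he j) _ (he k))
  have hx2 := A_err Rh hRhP (fun i j k => pv A a (e i) ^ 2 - G (e i)) ε hε
    (fun i j k => hA2 _ (he i))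
  rw [ap_tr2 V R hV] at hx1 hx2
  have hx1' := (abs_le.1 hx1).1
  have hx2' := (abs_le.1 hx2).2
  have s1 : ∑ i, ∑ j, ∑ k, Rh i j * Rh j k * Rh k i * (pd2 A a (e j) (e k) - D (e j) (e k)) =
      ∑ i, ∑ j, ∑ k, Rh i j * Rh j k * Rh k i * pd2 A a (e j) (e k) -
      ∑ i, ∑ j, ∑ k, Rh i j * Rh j k * Rh k i * D (e j) (e k) := by
    simp only [mul_sub, Finset.sum_sub_distrib]
  have s2 : ∑ i, ∑ j, ∑ k, Rh i j * Rh j k * Rh k i * (pv A a (e i) ^ 2 - G (e i)) =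
      ∑ i, ∑ j, ∑ k, Rh i j * Rh j k * Rh k i * pv A a (e i) ^ 2 -
      ∑ i, ∑ j, ∑ k, Rh i j * Rh j k * Rh k i * G (e i) := by
    simp only [mul_sub, Finset.sum_sub_distrib]
  have s3 : ∑ i, ∑ j, ∑ k, Rh i j * Rh j k * Rh k i *
      (D (e j) (e k) - (G (e j) + G (e k)) / 2 - κ) =
      ∑ i, ∑ j, ∑ k, Rh i j * Rh j k * Rh k i * D (e j) (e k) -
      (∑ i, ∑ j, ∑ k, Rh i j * Rh j k * Rh k i * G (e j)) / 2 -
      (∑ i, ∑ j, ∑ k, Rh i j * Rh j k * Rh k i * G (e k)) / 2 -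
      κ * ∑ i, ∑ j, ∑ k, Rh i j * Rh j k * Rh k i := by
    simp only [Finset.mul_sum, Finset.sum_div, ← Finset.sum_sub_distrib]
    refine Finset.sum_congr rfl fun i _ => Finset.sum_congr rfl fun j _ =>
      Finset.sum_congr rfl fun k _ => ?_
    ring
  rw [s1] at hx1'
  rw [s2] at hx2'
  rw [s3] at hpos
  rw [e4] at hx1' hx2' ⊢
  nlinarith

end Pool.Agent.W2helper1.LT
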