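import Pool.Agent.W2helper1.LT.Stm
import Pool.Agent.W2helper1.LT.Point
import Pool.Agent.W2helper17.LT.Apx
import Pool.Agent.W2helper17.LT.T1
import Pool.Agent.W2helper56.LT.P4
import Pool.Agent.W2helper68.LT.J

/-! Existence of polynomial calibrations with constants close to `π² / 3`. -/

set_option autoImplicit false

open MeasureTheory Set Filter Topology Real
open scoped Matrix

namespace Pool.Agent.W2helper1.LT

open LTd

theorem trace3_nonneg {n : ℕ} {R : Mat n} (hR : PSD R) : 0 ≤ (R * R * R).trace := by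
  have h1 := PSD_trace3 hR
  have h2 : 0 ≤ R.trace := Finset.sum_nonneg fun a _ => PSD_diag hR a
  have h3 : 0 ≤ R.trace ^ 3 := by positivity
  rcases Nat.eq_zero_or_pos n with hn | hn
  · subst hn
    simp
  · have h4 : (0 : ℝ) < (n : ℝ) ^ 2 := by positivity
    by_contra hc
    push Not at hc
    nlinarith

theorem dg_symm (s r : ℝ) : dg s r = dg r s := by
  unfold dg
  by_cases h : s = r
  · subst h
    rfl
  · rw [if_neg h, if_neg (Ne.symm h), ← neg_sub (g r) (g s), ← neg_sub r s, neg_div_neg_eq]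

theorem exists_calib (n : ℕ) {κ : ℝ} (hκ : κ < π ^ 2 / 3) :
    ∃ (A : Finset ℕ) (a : ℕ → ℝ), ∀ B R : Mat n, (∀ i j, B i j = B j i) →
      PSD ((1 / 2 : ℝ) • 1 + B) → PSD ((1 / 2 : ℝ) • 1 - B) → PSD R →
      κ * (R * R * R).trace ≤
      (R * dpm A a B R * R).trace - (pm A a B * (R * R * R) * pm A a B).trace := by
  -- choose the scaling
  have hcont : Tendsto (fun l : ℝ => l ^ 2 * (π ^ 2 / 3)) (𝓝[<] 1) (𝓝 (1 ^ 2 * (π ^ 2 / 3))) := by
    have h3 : Continuous (fun l : ℝ => l ^ 2 * (π ^ 2 / 3)) := by fun_prop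
    exact (h3.tendsto 1).mono_left nhdsWithin_le_nhds
  rw [one_pow, one_mul] at hcont
  have hev : ∀ᶠ l in 𝓝[<] (1 : ℝ), κ < l ^ 2 * (π ^ 2 / 3) := hcont.eventually_const_lt hκ
  have hev2 : ∀ᶠ l in 𝓝[<] (1 : ℝ), l ∈ Ioo (0 : ℝ) 1 := Ioo_mem_nhdsLT one_pos
  obtain ⟨l, hl1, hl0, hl⟩ := (hev.and hev2).exists
  set δ : ℝ := l ^ 2 * (π ^ 2 / 3) - κ with hδ
  have hδ0 : 0 < δ := by rw [hδ]; linarith
  set ε : ℝ := δ / (2 * ((n : ℝ) ^ 5 + 1)) with hε
  have hε0 : 0 < ε := by positivity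
  have hεn : 2 * ε * (n : ℝ) ^ 5 ≤ δ := by
    have h1 : 2 * ε * ((n : ℝ) ^ 5 + 1) = δ := by
      rw [hε]
      field_simp
    nlinarith
  obtain ⟨P, hP⟩ := Pool.Agent.W2helper17.LT.apx l ε hl0 hl hε0
  have hKP := Pool.Agent.W2helper56.LT4.kp Pool.Agent.W2helper17.LT.t1 Pool.Agent.W2helper68.LT.j2
    Pool.Agent.W2helper68.LT.j0
  refine ⟨P.support, P.coeff, fun B R hB hB1 hB2 hR => ?_⟩
  have hsc : ∀ s ∈ Icc (-(1 / 2) : ℝ) (1 / 2), |l * s| < 1 / 2 := by
    intro s hs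
    rw [abs_mul, abs_of_pos hl0]
    have h1 : |s| ≤ 1 / 2 := abs_le.2 ⟨by linarith [hs.1], hs.2⟩
    have h2 : 0 ≤ |s| := abs_nonneg s
    nlinarith
  have hpoint := point (n := n) (κ := l ^ 2 * (π ^ 2 / 3)) hε0.le P.support P.coeff
    (fun s r => l ^ 2 * dg (l * s) (l * r)) (fun s => (l * g (l * s)) ^ 2)
    (fun s r => by rw [dg_symm]) (by
      intro m e c he
      have h1 := hKP m (fun i => l * e i) c (fun i => hsc _ (he i))
      have h2 : ∑ i, ∑ j, c i * c j * (l ^ 2 * dg (l * e i) (l * e j) -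
          ((l * g (l * e i)) ^ 2 + (l * g (l * e j)) ^ 2) / 2 - l ^ 2 * (π ^ 2 / 3)) =
          l ^ 2 * ∑ i, ∑ j, c i * c j * (dg (l * e i) (l * e j) -
            (g (l * e i) ^ 2 + g (l * e j) ^ 2) / 2 - π ^ 2 / 3) := by
        rw [Finset.mul_sum]
        refine Finset.sum_congr rfl fun i _ => ?_
        rw [Finset.mul_sum]
        refine Finset.sum_congr rfl fun j _ => ?_
        ring
      rw [h2]
      exact mul_nonneg (sq_nonneg _) h1)
    (fun s hs r hr => by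
      have h1 := (hP s hs r hr).1
      have h2 : pd2 P.support P.coeff s r = dP P s r := by
        unfold pd2 dP gs
        rfl
      rw [h2]
      exact h1)
    (fun s hs => by
      have h1 := (hP s hs s hs).2
      have h2 : pv P.support P.coeff s = P.eval s := by
        unfold pv
        rw [Polynomial.eval_eq_sum, Polynomial.sum]
      rw [h2]
      exact h1)
    B R hB hB1 hB2 hR
  refine le_trans ?_ hpoint
  have h3 := trace3_nonneg hR
  have h4 : κ ≤ l ^ 2 * (π ^ 2 / 3) - 2 * ε * (n : ℝ) ^ 5 := by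
    rw [hδ] at hεn
    linarith
  exact mul_le_mul_of_nonneg_right h4 h3

end Pool.Agent.W2helper1.LT
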