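import Pool.Agent.W2helper1.LT.Point

/-! Integration of the calibration `Φ = - tr (R p(B) R)`. -/

set_option autoImplicit false

open MeasureTheory Set Filter Topology Real
open scoped Matrix

namespace Pool.Agent.W2helper1.LT

open LTd

theorem pm_sym {n : ℕ} (A : Finset ℕ) (a : ℕ → ℝ) {B : Mat n} (hB : Bᵀ = B) :
    (pm A a B)ᵀ = pm A a B := by
  unfold pm
  rw [Matrix.transpose_sum]
  refine Finset.sum_congr rfl fun q _ => ?_
  rw [Matrix.transpose_smul, Matrix.transpose_pow, hB]

/-- the algebra of the completion of the square -/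
theorem square {n : ℕ} {R P : Mat n} (S Q : Mat n) (hR : Rᵀ = R) (hP : Pᵀ = P)
    (hk : ∀ X Y : Mat n, 0 ≤ (X * Q * Xᵀ).trace - 2 * (X * S * Yᵀ).trace + (Y * R * Yᵀ).trace) :
    -(2 * (S * P * R).trace) - 2 * (S * R * P).trace - (P * (R * R * R) * P).trace ≤
      Q.trace + 3 / 4 * (-(4 * (S * P * R).trace) - (R * P * R * P * R).trace) := by
  have h := hk 1 ((1 / 2 : ℝ) • (R * P) - P * R)
  have hYt : ((1 / 2 : ℝ) • (R * P) - P * R)ᵀ = (1 / 2 : ℝ) • (P * R) - R * P := by
    rw [Matrix.transpose_sub, Matrix.transpose_smul, Matrix.transpose_mul, Matrix.transpose_mul,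
      hR, hP]
  rw [hYt, Matrix.transpose_one, Matrix.one_mul, Matrix.one_mul, Matrix.mul_one] at h
  have e1 : (S * ((1 / 2 : ℝ) • (P * R) - R * P)).trace =
      1 / 2 * (S * P * R).trace - (S * R * P).trace := by
    rw [Matrix.mul_sub, Matrix.mul_smul, Matrix.trace_sub, Matrix.trace_smul, smul_eq_mul,
      ← Matrix.mul_assoc, ← Matrix.mul_assoc]
  have c1 : (R * P * R * (P * R)).trace = (R * P * R * P * R).trace := by
    rw [← Matrix.mul_assoc]
  have c2 : (R * P * R * (R * P)).trace = (R * P * R * P * R).trace := by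
    rw [Matrix.trace_mul_comm]
    congr 1
    calc R * P * (R * P * R) = R * P * R * P * R := by simp only [Matrix.mul_assoc]
      _ = _ := rfl
  have c3 : (P * R * R * (P * R)).trace = (R * P * R * P * R).trace := by
    have h1 : P * R * R * (P * R) = (P * R) * (R * P * R) := by simp only [Matrix.mul_assoc]
    rw [h1, Matrix.trace_mul_comm]
    simp only [Matrix.mul_assoc]
  have c4 : (P * R * R * (R * P)).trace = (P * (R * R * R) * P).trace := by
    simp only [Matrix.mul_assoc]
  have e2 : (((1 / 2 : ℝ) • (R * P) - P * R) * R * ((1 / 2 : ℝ) • (P * R) - R * P)).trace =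
      -(3 / 4) * (R * P * R * P * R).trace + (P * (R * R * R) * P).trace := by
    rw [Matrix.sub_mul, Matrix.smul_mul, Matrix.sub_mul, Matrix.mul_sub, Matrix.mul_sub,
      Matrix.smul_mul, Matrix.smul_mul, Matrix.mul_smul, Matrix.mul_smul, Matrix.trace_sub,
      Matrix.trace_sub, Matrix.trace_sub, Matrix.trace_smul, Matrix.trace_smul, Matrix.trace_smul,
      Matrix.trace_smul, c1, c2, c3, c4]
    simp only [smul_eq_mul]
    ring
  rw [e1, e2] at h
  linarith

/-- The derivative of `tr (R B^q R)`. -/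
theorem deriv_q {n : ℕ} {B R R' : ℝ → Mat n}
    (hB : ∀ x i j, HasDerivAt (fun t => B t i j) (R x i j) x)
    (hR : ∀ x i j, HasDerivAt (fun t => R t i j) (R' x i j) x) (A : Finset ℕ) (a : ℕ → ℝ) (x : ℝ) :
    HasDerivAt (fun t => (R t * pm A a (B t) * R t).trace)
      ((R' x * pm A a (B x) * R x).trace + (R x * dpm A a (B x) (R x) * R x).trace +
        (R x * pm A a (B x) * R' x).trace) x := by
  have h1 : ∀ t, (R t * pm A a (B t) * R t).trace =
      ∑ q ∈ A, a q * (R t * B t ^ q * R t * B t ^ 0).trace := by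
    intro t
    unfold pm
    rw [Matrix.mul_sum, Matrix.sum_mul, Matrix.trace_sum]
    refine Finset.sum_congr rfl fun q _ => ?_
    rw [Matrix.mul_smul, Matrix.smul_mul, Matrix.trace_smul, smul_eq_mul, pow_zero, Matrix.mul_one]
  have h2 : (fun t => (R t * pm A a (B t) * R t).trace) =
      fun t => ∑ q ∈ A, a q * (R t * B t ^ q * R t * B t ^ 0).trace := funext h1
  rw [h2]
  have h3 : HasDerivAt (fun t => ∑ q ∈ A, a q * (R t * B t ^ q * R t * B t ^ 0).trace)
      (∑ q ∈ A, a q * ((R' x * B x ^ q * R x * B x ^ 0).trace +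
        (R x * dpow (B x) (R x) q * R x * B x ^ 0).trace +
        (R x * B x ^ q * R' x * B x ^ 0).trace +
        (R x * B x ^ q * R x * dpow (B x) (R x) 0).trace)) x :=
    HasDerivAt.fun_sum fun q _ => (A_deriv hB hR q 0 x).const_mul _
  refine h3.congr_deriv ?_
  have h4 : dpow (B x) (R x) 0 = 0 := by
    unfold dpow
    simp
  simp only [pow_zero, Matrix.mul_one, h4, Matrix.mul_zero, Matrix.trace_zero, add_zero]
  unfold pm dpm
  simp only [Matrix.mul_sum, Matrix.sum_mul, Matrix.trace_sum, Matrix.mul_smul, Matrix.smul_mul,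
    Matrix.trace_smul, smul_eq_mul, ← Finset.sum_add_distrib, ← mul_add]

/-- The weight of the Fisher information for the test operator `- ∑ p(B)_{ij} w_i ⊗ w_j`. -/
noncomputable def fw {n : ℕ} (A : Finset ℕ) (a : ℕ → ℝ) (B R S : Mat n) : ℝ :=
  -(4 * (S * pm A a B * R).trace) - (R * pm A a B * R * pm A a B * R).trace

theorem continuous_fw {n : ℕ} (A : Finset ℕ) (a : ℕ → ℝ) {B R S : ℝ → Mat n} (hB : Continuous B)
    (hR : Continuous R) (hS : Continuous S) : Continuous fun x => fw A a (B x) (R x) (S x) := by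
  unfold fw pm
  fun_prop

theorem main6 {n : ℕ} {R S Q : ℝ → Mat n} (h : Sys R S Q) (hT : PSD (1 - Tot R))
    (A : Finset ℕ) (a : ℕ → ℝ) (κ : ℝ)
    (hpoint : ∀ B R : Mat n, (∀ i j, B i j = B j i) → PSD ((1 / 2 : ℝ) • 1 + B) →
      PSD ((1 / 2 : ℝ) • 1 - B) → PSD R →
      κ * (R * R * R).trace ≤
      (R * dpm A a B R * R).trace - (pm A a B * (R * R * R) * pm A a B).trace) :
    (Integrable fun x => fw A a (Gam R x - (1 / 2 : ℝ) • 1) (R x) (S x)) ∧
    κ * ∫ x, (R x * R x * R x).trace ≤
      (∫ x, (Q x).trace) + 3 / 4 * ∫ x, fw A a (Gam R x - (1 / 2 : ℝ) • 1) (R x) (S x) := by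
  obtain ⟨B, hBdef⟩ : ∃ B : ℝ → Mat n, B = fun x => Gam R x - (1 / 2 : ℝ) • 1 := ⟨_, rfl⟩
  have hBx : ∀ x, Gam R x - (1 / 2 : ℝ) • 1 = B x := fun x => by rw [hBdef]
  simp only [hBx]
  have hBd : ∀ x i j, HasDerivAt (fun t => B t i j) (R x i j) x := by
    intro x i j
    rw [hBdef]
    exact (gam_der h x i j).sub_const _
  have hRd : ∀ x i j, HasDerivAt (fun t => R t i j) ((S x + (S x)ᵀ) i j) x := h.der
  have hRc : Continuous R := by
    refine continuous_matrix (fun i j => ?_)
    exact continuous_iff_continuousAt.2 (fun x => (hRd x i j).continuousAt)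
  have hBc : Continuous B := by
    refine continuous_matrix (fun i j => ?_)
    exact continuous_iff_continuousAt.2 (fun x => (hBd x i j).continuousAt)
  have hSc : Continuous S := continuous_matrix h.cS
  have hQc : Continuous Q := continuous_matrix h.cQ
  have hBs : ∀ x i j, B x i j = B x j i := by
    intro x i j
    rw [hBdef]
    have h1 := (gam_psd h x).1.1 i j
    have h2 : (1 : Mat n) i j = (1 : Mat n) j i := by
      rw [Matrix.one_apply, Matrix.one_apply]
      simp only [eq_comm]
    show Gam R x i j - (1 / 2 : ℝ) * (1 : Mat n) i j = Gam R x j i - (1 / 2 : ℝ) * (1 : Mat n) j i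
    rw [h1, h2]
  have hBt : ∀ x, (B x)ᵀ = B x := fun x => by
    ext i j
    exact hBs x j i
  have hRt : ∀ x, (R x)ᵀ = R x := fun x => by
    ext i j
    exact h.symR x j i
  obtain ⟨M, hM⟩ := h.supp
  have hcs : ∀ g : ℝ → ℝ, Continuous g → (∀ x, R x = 0 → S x = 0 → Q x = 0 → g x = 0) →
      Integrable g := by
    intro g hg hg0
    refine hg.integrable_of_hasCompactSupport (HasCompactSupport.intro (isCompact_Icc (a := -M) (b := M)) ?_)
    intro x hx
    have h1 : M < |x| := by
      by_contra hc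
      push Not at hc
      exact hx (mem_Icc.2 (abs_le.1 hc))
    obtain ⟨h2, h3, h4⟩ := hM x h1
    exact hg0 x h2 h3 h4
  have hpc : Continuous fun x => pm A a (B x) := by
    unfold pm
    fun_prop
  have hdc : Continuous (fun x => dpm A a (B x) (R x)) := by
    unfold dpm dpow
    fun_prop
  have hΦd := fun x => deriv_q hBd hRd A a x
  have hΦi : Integrable (fun t => (R t * pm A a (B t) * R t).trace) := by
    refine hcs _ ?_ (fun x h1 _ _ => ?_)
    · fun_prop
    · simp [h1]
  have hΦ'i : Integrable (fun x => ((S x + (S x)ᵀ) * pm A a (B x) * R x).trace +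
      (R x * dpm A a (B x) (R x) * R x).trace +
        (R x * pm A a (B x) * (S x + (S x)ᵀ)).trace) := by
    refine hcs _ ?_ (fun x h1 _ _ => ?_)
    · fun_prop
    · simp [h1]
  have hint0 := integral_eq_zero_of_hasDerivAt_of_integrable hΦd hΦ'i hΦi
  have hR3i : Integrable (fun x => (R x * R x * R x).trace) := by
    refine hcs _ (by fun_prop) (fun x h1 _ _ => ?_)
    simp [h1]
  have hQi : Integrable (fun x => (Q x).trace) := by
    refine hcs _ (by fun_prop) (fun x _ _ h1 => ?_)
    simp [h1]
  have hfi : Integrable (fun x => fw A a (B x) (R x) (S x)) := by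
    refine hcs _ (continuous_fw A a hBc hRc hSc) (fun x h1 _ _ => ?_)
    simp [fw, h1]
  refine ⟨hfi, ?_⟩
  have hpt : ∀ x, κ * (R x * R x * R x).trace ≤ (Q x).trace + 3 / 4 * fw A a (B x) (R x) (S x) +
      (((S x + (S x)ᵀ) * pm A a (B x) * R x).trace +
      (R x * dpm A a (B x) (R x) * R x).trace +
        (R x * pm A a (B x) * (S x + (S x)ᵀ)).trace) := by
    intro x
    have hP := pm_sym A a (hBt x)
    have h1 := square (S x) (Q x) (hRt x) hP (h.key x)
    have h2 := hpoint (B x) (R x) (hBs x)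
      (by
        have e : (1 / 2 : ℝ) • (1 : Mat n) + B x = Gam R x := by
          rw [hBdef]
          module
        rw [e]
        exact (gam_psd h x).1)
      (by
        have e : (1 / 2 : ℝ) • (1 : Mat n) - B x = (1 - Tot R) + (Tot R - Gam R x) := by
          rw [hBdef]
          module
        rw [e]
        exact A_main_psd_add hT (gam_psd h x).2)
      (sys_psd h x)
    have t1 : ((S x)ᵀ * pm A a (B x) * R x).trace = (S x * R x * pm A a (B x)).trace := by
      rw [← Matrix.trace_transpose]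
      simp only [Matrix.transpose_mul, Matrix.transpose_transpose, hP, hRt]
      rw [← Matrix.mul_assoc, Matrix.trace_mul_comm, ← Matrix.mul_assoc]
    have t2 : (R x * pm A a (B x) * S x).trace = (S x * R x * pm A a (B x)).trace := by
      rw [Matrix.trace_mul_comm, ← Matrix.mul_assoc]
    have t3 : (R x * pm A a (B x) * (S x)ᵀ).trace = (S x * pm A a (B x) * R x).trace := by
      rw [← Matrix.trace_transpose]
      simp only [Matrix.transpose_mul, Matrix.transpose_transpose, hP, hRt]
      rw [Matrix.mul_assoc]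
    rw [Matrix.add_mul, Matrix.add_mul, Matrix.mul_add, Matrix.trace_add, Matrix.trace_add, t1, t2,
      t3]
    unfold fw
    linarith
  have hfin := integral_mono (hR3i.const_mul κ) ((hQi.add (hfi.const_mul (3 / 4))).add hΦ'i) hpt
  have e5 := integral_add (hQi.add (hfi.const_mul (3 / 4))) hΦ'i
  have e6 := integral_add hQi (hfi.const_mul (3 / 4))
  rw [integral_const_mul] at hfin e6
  simp only [Pi.add_apply] at hfin e5 e6
  rw [hint0, add_zero] at e5
  calc _ ≤ _ := hfin
    _ = _ := e5
    _ = _ := e6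

end Pool.Agent.W2helper1.LT
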