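import Pool.Agent.W2helper1.LT.Main

/-! The value of the Fisher form at the test operator. -/

set_option autoImplicit false

open MeasureTheory Set Filter Topology Real
open scoped Matrix ENNReal

namespace Pool.Agent.W2helper1.LT

open LTd

section
variable {Y : Type*} [MeasurableSpace Y] {μ : Measure Y} [SFinite μ]

/-- real symmetric Hilbert–Schmidt kernels -/
def IsKernel (μ : Measure Y) (L : Y → Y → ℝ) : Prop :=
  MemLp (fun p : Y × Y => L p.1 p.2) 2 (μ.prod μ) ∧ ∀ y z, L y z = L z y

/-- `2 tr (Γ' L) - tr (Γ L²)` for `Γ = ∑ u_n ⊗ ū_n`, `Γ' = ∑ (v_n ⊗ ū_n + u_n ⊗ v̄_n)` -/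
noncomputable def form {N : ℕ} (μ : Measure Y) (u v : Fin N → Y → ℂ) (L : Y → Y → ℝ) : ℝ :=
  ∑ n, (4 * (∫ y, (starRingEnd ℂ) (v n y) * (∫ z, (L y z : ℂ) * u n z ∂μ) ∂μ).re -
    ∫ y, ‖∫ z, (L y z : ℂ) * u n z ∂μ‖ ^ 2 ∂μ)

/-- real and imaginary parts -/
noncomputable def reim {N : ℕ} (u : Fin N → Y → ℂ) : Fin (N + N) → Y → ℝ :=
  Fin.append (fun i y => (u i y).re) (fun i y => (u i y).im)

theorem reim_l {N : ℕ} (u : Fin N → Y → ℂ) (i : Fin N) (y : Y) :
    reim u (Fin.castAdd N i) y = (u i y).re := by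
  unfold reim
  rw [Fin.append_left]

theorem reim_r {N : ℕ} (u : Fin N → Y → ℂ) (i : Fin N) (y : Y) :
    reim u (Fin.natAdd N i) y = (u i y).im := by
  unfold reim
  rw [Fin.append_right]

theorem reim_memLp {N : ℕ} {u : Fin N → Y → ℂ} (hu : ∀ n, MemLp (u n) 2 μ) (i : Fin (N + N)) :
    MemLp (reim u i) 2 μ := by
  refine Fin.addCases (fun i => ?_) (fun i => ?_) i
  · have h : reim u (Fin.castAdd N i) = fun y => (u i y).re := funext fun y => reim_l u i y
    rw [h]
    exact (hu i).re
  · have h : reim u (Fin.natAdd N i) = fun y => (u i y).im := funext fun y => reim_r u i y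
    rw [h]
    exact (hu i).im

/-- Gram matrices -/
noncomputable def gm {n : ℕ} (μ : Measure Y) (V U : Fin n → Y → ℝ) : Mat n :=
  Matrix.of fun i j => ∫ y, V i y * U j y ∂μ

/-- the test kernel -/
noncomputable def tk {n : ℕ} (P : Mat n) (U : Fin n → Y → ℝ) (y z : Y) : ℝ :=
  -∑ i, ∑ j, P i j * (U i y * U j z)

theorem tk_isKernel {n : ℕ} {P : Mat n} (hP : Pᵀ = P) {U : Fin n → Y → ℝ}
    (hU : ∀ i, MemLp (U i) 2 μ) : IsKernel μ (tk P U) := by
  constructor
  · have h1 : ∀ i j, MemLp (fun p : Y × Y => U i p.1 * U j p.2) 2 (μ.prod μ) := by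
      intro i j
      have hm : AEStronglyMeasurable (fun p : Y × Y => U i p.1 * U j p.2) (μ.prod μ) :=
        (hU i).aestronglyMeasurable.comp_fst.mul (hU j).aestronglyMeasurable.comp_snd
      rw [memLp_two_iff_integrable_sq hm]
      have h2 : (fun p : Y × Y => (U i p.1 * U j p.2) ^ 2) =
          fun p : Y × Y => U i p.1 ^ 2 * U j p.2 ^ 2 := by
        funext p
        ring
      rw [h2]
      exact (hU i).integrable_sq.mul_prod (hU j).integrable_sq
    show MemLp (fun p : Y × Y => -∑ i, ∑ j, P i j * (U i p.1 * U j p.2)) 2 (μ.prod μ)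
    have h3 : MemLp (fun p : Y × Y => ∑ i, ∑ j, P i j * (U i p.1 * U j p.2)) 2 (μ.prod μ) :=
      memLp_finsetSum _ fun i _ => memLp_finsetSum _ fun j _ => (h1 i j).const_mul _
    exact h3.neg
  · intro y z
    unfold tk
    rw [Finset.sum_comm]
    congr 1
    refine Finset.sum_congr rfl fun i _ => Finset.sum_congr rfl fun j _ => ?_
    have h : P j i = P i j := by
      conv_lhs => rw [← hP]
      rfl
    rw [h]
    ring

theorem form_eq {N : ℕ} {u v : Fin N → Y → ℂ} (hu : ∀ n, MemLp (u n) 2 μ)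
    (hv : ∀ n, MemLp (v n) 2 μ) {P : Mat (N + N)} (hP : Pᵀ = P) :
    form μ u v (tk P (reim u)) =
      -(4 * (gm μ (reim v) (reim u) * P * gm μ (reim u) (reim u)).trace) -
        (gm μ (reim u) (reim u) * P * gm μ (reim u) (reim u) * P * gm μ (reim u) (reim u)).trace := by
  set U := reim u with hUdef
  set V := reim v with hVdef
  set R := gm μ U U with hR
  set S := gm μ V U with hS
  have hU : ∀ i, MemLp (U i) 2 μ := reim_memLp hu
  have hV : ∀ i, MemLp (V i) 2 μ := reim_memLp hv
  have iUU : ∀ i j, Integrable (fun y => U i y * U j y) μ := fun i j => (hU i).integrable_mul (hU j)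
  have iVU : ∀ i j, Integrable (fun y => V i y * U j y) μ := fun i j => (hV i).integrable_mul (hU j)
  have iUu : ∀ i n, Integrable (fun y => (U i y : ℂ) * u n y) μ := fun i n =>
    ((hU i).ofReal (K := ℂ)).integrable_mul (hu n)
  have hRs : ∀ i j, R i j = R j i := by
    intro i j
    show ∫ y, U i y * U j y ∂μ = ∫ y, U j y * U i y ∂μ
    congr 1
    funext y
    ring
  have hRt : Rᵀ = R := by
    ext i j
    exact hRs j i
  set T : Mat (N + N) := P * R with hT
  -- coefficients
  have hUu : ∀ j n, ∫ z, (U j z : ℂ) * u n z ∂μ =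
      (R j (Fin.castAdd N n) : ℂ) + (R j (Fin.natAdd N n) : ℂ) * Complex.I := by
    intro j n
    have h1 : ∀ z, (U j z : ℂ) * u n z =
        ((U j z * U (Fin.castAdd N n) z : ℝ) : ℂ) +
          ((U j z * U (Fin.natAdd N n) z : ℝ) : ℂ) * Complex.I := by
      intro z
      rw [hUdef, reim_l u n z, reim_r u n z]
      conv_lhs => rw [← Complex.re_add_im (u n z)]
      push_cast
      ring
    simp only [h1]
    rw [integral_add (iUU _ _).ofReal ((iUU _ _).ofReal.mul_const _), integral_mul_const,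
      integral_complex_ofReal, integral_complex_ofReal]
    rfl
  set c : Fin (N + N) → Fin N → ℂ := fun i n =>
    (T i (Fin.castAdd N n) : ℂ) + (T i (Fin.natAdd N n) : ℂ) * Complex.I with hc
  have hinner : ∀ n y, ∫ z, ((tk P U y z : ℝ) : ℂ) * u n z ∂μ = -∑ i, (U i y : ℂ) * c i n := by
    intro n y
    have h1 : ∀ z, ((tk P U y z : ℝ) : ℂ) * u n z =
        -∑ i, ∑ j, (P i j : ℂ) * (U i y : ℂ) * ((U j z : ℂ) * u n z) := by
      intro z
      unfold tk
      push_cast
      rw [neg_mul, Finset.sum_mul]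
      congr 1
      refine Finset.sum_congr rfl fun i _ => ?_
      rw [Finset.sum_mul]
      refine Finset.sum_congr rfl fun j _ => ?_
      ring
    simp only [h1]
    rw [integral_neg, integral_finsetSum _ fun i _ => integrable_finsetSum _ fun j _ =>
      (iUu j n).const_mul _]
    congr 1
    refine Finset.sum_congr rfl fun i _ => ?_
    rw [integral_finsetSum _ fun j _ => (iUu j n).const_mul _]
    simp only [integral_const_mul, hUu]
    rw [hc]
    dsimp only
    rw [hT, Matrix.mul_apply, Matrix.mul_apply]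
    push_cast
    rw [Finset.sum_mul, ← Finset.sum_add_distrib, Finset.mul_sum]
    refine Finset.sum_congr rfl fun j _ => ?_
    ring
  -- first terms
  have hfirst : ∀ n, (∫ y, (starRingEnd ℂ) (v n y) * (∫ z, ((tk P U y z : ℝ) : ℂ) * u n z ∂μ) ∂μ).re =
      -∑ i, (S (Fin.castAdd N n) i * T i (Fin.castAdd N n) +
        S (Fin.natAdd N n) i * T i (Fin.natAdd N n)) := by
    intro n
    have h1 : ∀ y, (starRingEnd ℂ) (v n y) * (∫ z, ((tk P U y z : ℝ) : ℂ) * u n z ∂μ) =
        -∑ i, (((V (Fin.castAdd N n) y * U i y : ℝ) : ℂ) * c i n -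
          ((V (Fin.natAdd N n) y * U i y : ℝ) : ℂ) * (Complex.I * c i n)) := by
      intro y
      rw [hinner, mul_neg, Finset.mul_sum]
      congr 1
      refine Finset.sum_congr rfl fun i _ => ?_
      rw [hVdef, reim_l v n y, reim_r v n y]
      have h2 : (starRingEnd ℂ) (v n y) = ((v n y).re : ℂ) - ((v n y).im : ℂ) * Complex.I := by
        apply Complex.ext <;> simp
      rw [h2]
      push_cast
      ring
    simp only [h1]
    rw [integral_neg, integral_finsetSum]
    · rw [Complex.neg_re, Complex.re_sum]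
      congr 1
      refine Finset.sum_congr rfl fun i _ => ?_
      rw [integral_sub ((iVU _ _).ofReal.mul_const _) ((iVU _ _).ofReal.mul_const _),
        integral_mul_const, integral_mul_const, integral_complex_ofReal, integral_complex_ofReal]
      have h3 : ∫ y, V (Fin.castAdd N n) y * U i y ∂μ = S (Fin.castAdd N n) i := rfl
      have h4 : ∫ y, V (Fin.natAdd N n) y * U i y ∂μ = S (Fin.natAdd N n) i := rfl
      rw [h3, h4, hc]
      simp [Complex.mul_re, Complex.add_re, Complex.sub_re]
    · intro i _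
      exact ((iVU _ _).ofReal.mul_const _).sub ((iVU _ _).ofReal.mul_const _)
  -- second terms
  have hsecond : ∀ n, ∫ y, ‖∫ z, ((tk P U y z : ℝ) : ℂ) * u n z ∂μ‖ ^ 2 ∂μ =
      ∑ i, ∑ j, (T i (Fin.castAdd N n) * R i j * T j (Fin.castAdd N n) +
        T i (Fin.natAdd N n) * R i j * T j (Fin.natAdd N n)) := by
    intro n
    have h1 : ∀ y, ‖∫ z, ((tk P U y z : ℝ) : ℂ) * u n z ∂μ‖ ^ 2 =
        ∑ i, ∑ j, (T i (Fin.castAdd N n) * T j (Fin.castAdd N n) +
          T i (Fin.natAdd N n) * T j (Fin.natAdd N n)) * (U i y * U j y) := by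
      intro y
      rw [hinner, norm_neg, Complex.sq_norm, Complex.normSq_apply]
      have h2 : (∑ i, (U i y : ℂ) * c i n).re = ∑ i, U i y * T i (Fin.castAdd N n) := by
        rw [Complex.re_sum]
        refine Finset.sum_congr rfl fun i _ => ?_
        rw [hc]
        simp
      have h3 : (∑ i, (U i y : ℂ) * c i n).im = ∑ i, U i y * T i (Fin.natAdd N n) := by
        rw [Complex.im_sum]
        refine Finset.sum_congr rfl fun i _ => ?_
        rw [hc]
        simp
      rw [h2, h3, Finset.sum_mul_sum, Finset.sum_mul_sum, ← Finset.sum_add_distrib]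
      refine Finset.sum_congr rfl fun i _ => ?_
      rw [← Finset.sum_add_distrib]
      refine Finset.sum_congr rfl fun j _ => ?_
      ring
    simp only [h1]
    rw [integral_finsetSum _ fun i _ => integrable_finsetSum _ fun j _ => (iUU i j).const_mul _]
    refine Finset.sum_congr rfl fun i _ => ?_
    rw [integral_finsetSum _ fun j _ => (iUU i j).const_mul _]
    refine Finset.sum_congr rfl fun j _ => ?_
    rw [integral_const_mul]
    have h3 : ∫ y, U i y * U j y ∂μ = R i j := rfl
    rw [h3]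
    ring
  unfold form
  simp only [hfirst, hsecond]
  have e1 : (S * P * R).trace = ∑ n : Fin N, ∑ i, (S (Fin.castAdd N n) i * T i (Fin.castAdd N n) +
        S (Fin.natAdd N n) i * T i (Fin.natAdd N n)) := by
    rw [Matrix.mul_assoc, ← hT]
    unfold Matrix.trace
    rw [Fin.sum_univ_add, ← Finset.sum_add_distrib]
    refine Finset.sum_congr rfl fun n _ => ?_
    rw [Matrix.diag_apply, Matrix.diag_apply, Matrix.mul_apply, Matrix.mul_apply,
      ← Finset.sum_add_distrib]
  have e2 : (R * P * R * P * R).trace = ∑ n : Fin N, ∑ i, ∑ j,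
      (T i (Fin.castAdd N n) * R i j * T j (Fin.castAdd N n) +
        T i (Fin.natAdd N n) * R i j * T j (Fin.natAdd N n)) := by
    have h1 : R * P * R * P * R = Tᵀ * (R * T) := by
      rw [hT, Matrix.transpose_mul, hP, hRt]
      simp only [Matrix.mul_assoc]
    rw [h1]
    unfold Matrix.trace
    rw [Fin.sum_univ_add, ← Finset.sum_add_distrib]
    have h2 : ∀ k, (Tᵀ * (R * T)).diag k = ∑ i, ∑ j, T i k * R i j * T j k := by
      intro k
      rw [Matrix.diag_apply, Matrix.mul_apply]
      refine Finset.sum_congr rfl fun i _ => ?_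
      rw [Matrix.transpose_apply, Matrix.mul_apply, Finset.mul_sum]
      refine Finset.sum_congr rfl fun j _ => ?_
      ring
    refine Finset.sum_congr rfl fun n _ => ?_
    rw [h2, h2, ← Finset.sum_add_distrib]
    refine Finset.sum_congr rfl fun i _ => ?_
    rw [← Finset.sum_add_distrib]
  rw [e1, e2, Finset.mul_sum, ← Finset.sum_neg_distrib, ← Finset.sum_sub_distrib]
  refine Finset.sum_congr rfl fun n _ => ?_
  ring

end

end Pool.Agent.W2helper1.LT
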