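import Pool.Agent.W2helper1.LT.Main

/-! Statements of the pieces for the passage to `H¹`. -/

set_option autoImplicit false

open MeasureTheory Set Filter Topology Real
open scoped Matrix

namespace Pool.Agent.W2helper1.LT

open LTd

/-- `∫ v_i f_j` over the slices -/
noncomputable def SF {m n : ℕ} (v f : Fin n → (Fin (m + 1) → ℝ) → ℝ) (x : ℝ) : Mat n :=
  Matrix.of fun i j => ∫ y : Fin m → ℝ,
    v i (Fin.cons x y : Fin (m + 1) → ℝ) * f j (Fin.cons x y : Fin (m + 1) → ℝ)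

/-- the weight of the Fisher information for the polynomial test operator -/
noncomputable def FW {m n : ℕ} (A : Finset ℕ) (a : ℕ → ℝ) (f v : Fin n → (Fin (m + 1) → ℝ) → ℝ)
    (x : ℝ) : ℝ :=
  fw A a (Gam (RS f) x - (1 / 2 : ℝ) • 1) (RS f x) (SF v f x)

/-- piece APPROX2: strong approximation in `H¹` by `C¹` functions with compact support, which does
not increase the Gram matrix. (As `LTd.H_approx`, with strong convergence of the derivatives.) -/
def Approx2 : Prop := ∀ (d n : ℕ) (f : Fin n → (Fin d → ℝ) → ℝ)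
  (g : Fin n → Fin d → (Fin d → ℝ) → ℝ), (∀ i, WGrad (f i) (g i)) →
    ∃ F : ℕ → Fin n → (Fin d → ℝ) → ℝ, (∀ k i, ContDiff ℝ 1 (F k i)) ∧
      (∀ k i, HasCompactSupport (F k i)) ∧
      (∀ k (v : Fin n → ℝ), ∫ x, (∑ i, v i * F k i x) ^ 2 ≤ ∫ x, (∑ i, v i * f i x) ^ 2) ∧
      (∀ᵐ x, ∀ i, Tendsto (fun k => F k i x) atTop (𝓝 (f i x))) ∧
      (∀ i, Tendsto (fun k => ∫ x, (F k i x - f i x) ^ 2) atTop (𝓝 0)) ∧
      (∀ j i, Tendsto (fun k => ∫ x, (pd j (F k i) x - g i j x) ^ 2) atTop (𝓝 0))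

/-- piece LIM: the weight is continuous for the strong convergence in `H¹` -/
def Lim : Prop := ∀ (m n : ℕ) (A : Finset ℕ) (a : ℕ → ℝ) (f g : Fin n → (Fin (m + 1) → ℝ) → ℝ)
  (F : ℕ → Fin n → (Fin (m + 1) → ℝ) → ℝ), (∀ i, MemLp (f i) 2 volume) →
    (∀ i, MemLp (g i) 2 volume) → (∀ k i, ContDiff ℝ 1 (F k i)) →
    (∀ k i, HasCompactSupport (F k i)) →
    (∀ i, Tendsto (fun k => ∫ x, (F k i x - f i x) ^ 2) atTop (𝓝 0)) →
    (∀ i, Tendsto (fun k => ∫ x, (pd 0 (F k i) x - g i x) ^ 2) atTop (𝓝 0)) →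
    Integrable (FW A a f g) ∧
    Tendsto (fun k => ∫ x, FW A a (F k) (fun i => pd 0 (F k i)) x) atTop (𝓝 (∫ x, FW A a f g x))

end Pool.Agent.W2helper1.LT
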