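import Pool.Agent.Helper717.LT.P_bco_pos
import Pool.Agent.W2helper1.LT.Stm2
import Pool.Agent.W2helper1.LT.Core
import Pool.Agent.W2helper1.LT.Calib

/-! The inequality for real `H¹` systems. -/

set_option autoImplicit false

open MeasureTheory Set Filter Topology Real
open scoped Matrix

namespace Pool.Agent.W2helper1.LT

open LTd

theorem SF_pd {m n : ℕ} (w : Fin n → (Fin (m + 1) → ℝ) → ℝ) (x : ℝ) :
    SF (fun i => pd 0 (w i)) w x = SS w x := rfl

/-- a quadratic form of squares of `L²` functions converges -/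
theorem tendsto_sq_int {d : ℕ} {F : ℕ → (Fin d → ℝ) → ℝ} {f : (Fin d → ℝ) → ℝ}
    (hF : ∀ k, MemLp (F k) 2 volume) (hf : MemLp f 2 volume)
    (h : Tendsto (fun k => ∫ x, (F k x - f x) ^ 2) atTop (𝓝 0)) :
    Tendsto (fun k => ∫ x, F k x ^ 2) atTop (𝓝 (∫ x, f x ^ 2)) := by
  have hd : ∀ k, MemLp (fun x => F k x - f x) 2 volume := fun k => (hF k).sub hf
  have hI : Integrable (fun x => f x ^ 2) volume := hf.integrable_sq
  have hID : ∀ k, Integrable (fun x => (F k x - f x) ^ 2) volume := fun k => (hd k).integrable_sq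
  have hcross : ∀ k, Integrable (fun x => (F k x - f x) * f x) volume := fun k =>
    (hd k).integrable_mul hf
  have h1 : ∀ k, ∫ x, F k x ^ 2 = (∫ x, (F k x - f x) ^ 2) + 2 * (∫ x, (F k x - f x) * f x) +
      ∫ x, f x ^ 2 := by
    intro k
    have e : (fun x => F k x ^ 2) = fun x => (F k x - f x) ^ 2 + 2 * ((F k x - f x) * f x) +
        f x ^ 2 := by
      funext x
      ring
    rw [e]
    have i1 := integral_add ((hID k).add ((hcross k).const_mul 2)) hI
    have i2 := integral_add (hID k) ((hcross k).const_mul 2)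
    rw [integral_const_mul] at i2
    simp only [Pi.add_apply] at i1 i2
    rw [i1, i2]
  -- Cauchy–Schwarz with parameter
  have hc : Tendsto (fun k => ∫ x, (F k x - f x) * f x) atTop (𝓝 0) := by
    rw [Metric.tendsto_atTop]
    intro ε hε
    set I : ℝ := ∫ x, f x ^ 2 with hIdef
    have hI0 : 0 ≤ I := integral_nonneg fun x => sq_nonneg _
    set t : ℝ := ε / (I + 1) with ht
    have ht0 : 0 < t := by positivity
    obtain ⟨K, hK⟩ := (Metric.tendsto_atTop.1 h) (t * ε) (by positivity)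
    refine ⟨K, fun k hk => ?_⟩
    have h2 := hK k hk
    rw [Real.dist_eq, sub_zero] at h2
    have h3 : ∫ x, (F k x - f x) ^ 2 < t * ε := lt_of_le_of_lt (le_abs_self _) h2
    rw [Real.dist_eq, sub_zero]
    have h4 : |∫ x, (F k x - f x) * f x| ≤ ∫ x, |(F k x - f x) * f x| := abs_integral_le_integral_abs
    have h5 : ∫ x, |(F k x - f x) * f x| ≤ ∫ x, ((1 / (2 * t)) * (F k x - f x) ^ 2 + t / 2 * f x ^ 2) := by
      refine integral_mono (hcross k).abs (((hID k).const_mul _).add (hI.const_mul _)) fun x => ?_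
      show |(F k x - f x) * f x| ≤ 1 / (2 * t) * (F k x - f x) ^ 2 + t / 2 * f x ^ 2
      rw [abs_mul]
      have h6 : 0 ≤ (|F k x - f x| - t * |f x|) ^ 2 := sq_nonneg _
      have h7 : |F k x - f x| ^ 2 = (F k x - f x) ^ 2 := sq_abs _
      have h8 : |f x| ^ 2 = f x ^ 2 := sq_abs _
      rw [← h7, ← h8]
      have h9 : 1 / (2 * t) * |F k x - f x| ^ 2 + t / 2 * |f x| ^ 2 - |F k x - f x| * |f x| =
          1 / (2 * t) * (|F k x - f x| - t * |f x|) ^ 2 := by
        field_simp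
        ring
      have h10 : 0 ≤ 1 / (2 * t) * (|F k x - f x| - t * |f x|) ^ 2 := by positivity
      linarith
    rw [integral_add ((hID k).const_mul _) (hI.const_mul _), integral_const_mul,
      integral_const_mul] at h5
    have h11 : 1 / (2 * t) * ∫ x, (F k x - f x) ^ 2 < ε / 2 := by
      rw [one_div, inv_mul_lt_iff₀ (by positivity)]
      calc ∫ x, (F k x - f x) ^ 2 < t * ε := h3
        _ = 2 * t * (ε / 2) := by ring
    have h12 : t / 2 * ∫ x, f x ^ 2 ≤ ε / 2 := by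
      have h13 : t * I ≤ ε := by
        rw [ht, div_mul_eq_mul_div, div_le_iff₀ (by positivity)]
        nlinarith
      have : t / 2 * I ≤ ε / 2 := by linarith
      exact this
    linarith
  have h2 := (h.add (hc.const_mul 2)).add_const (∫ x, f x ^ 2)
  simp only [mul_zero, add_zero, zero_add] at h2
  refine h2.congr fun k => ?_
  exact (h1 k).symm

theorem hreal6 (hA : Approx2) (hL : Lim) (m n : ℕ) (f : Fin n → (Fin (m + 1) → ℝ) → ℝ)
    (g : Fin n → Fin (m + 1) → (Fin (m + 1) → ℝ) → ℝ) (hf : ∀ i, WGrad (f i) (g i))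
    (hG : ∀ v : Fin n → ℝ, ∫ x, (∑ i, v i * f i x) ^ 2 ≤ ∑ i, v i ^ 2) {κ : ℝ} (hκ0 : 0 < κ)
    (hκ : κ < π ^ 2 / 3) :
    Integrable (fun x => (∑ i, f i x ^ 2) ^ pp (3 / 2 + m / 2)) ∧
    ∃ (A : Finset ℕ) (a : ℕ → ℝ), Integrable (FW A a f fun i => g i 0) ∧
    bco (m / 2) (3 / 2) κ * ∫ x, (∑ i, f i x ^ 2) ^ pp (3 / 2 + m / 2) ≤
      (∫ x, ∑ j, ∑ i, g i j x ^ 2) + 3 / 4 * ∫ x, FW A a f (fun i => g i 0) x := by
  have hp : 0 < pp (3 / 2 + (m:ℝ) / 2) := by
    unfold pp
    have h0 : (0:ℝ) ≤ m := Nat.cast_nonneg m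
    have h1 : (3 / 2 + (m:ℝ) / 2) - 1 = 1 / 2 + (m:ℝ) / 2 := by ring
    rw [h1]; positivity
  have hb : 0 < bco ((m:ℝ) / 2) (3 / 2) κ :=
    bco_pos (by positivity) (by norm_num) hκ0
  set p := pp (3 / 2 + (m:ℝ) / 2) with hpdef
  set b := bco ((m:ℝ) / 2) (3 / 2) κ with hbdef
  obtain ⟨A, a, hpoint⟩ := exists_calib n hκ
  obtain ⟨F, hF1, hF2, hF3, hF4, hF5, hF6⟩ := hA (m + 1) n f g hf
  obtain ⟨hFWi, hFWl⟩ := hL m n A a f (fun i => g i 0) F (fun i => (hf i).f2)
    (fun i => (hf i).g2 0) hF1 hF2 hF5 (fun i => hF6 0 i)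
  have hFm : ∀ k i, MemLp (F k i) 2 volume := fun k i =>
    (hF1 k i).continuous.memLp_of_hasCompactSupport (hF2 k i)
  have hpm : ∀ k j i, MemLp (pd j (F k i)) 2 volume := fun k j i =>
    (pd_basic (hF1 k i) (hF2 k i) j).1.memLp_of_hasCompactSupport (pd_basic (hF1 k i) (hF2 k i) j).2
  -- energies converge
  have hE : Tendsto (fun k => ∫ x, ∑ j, ∑ i, pd j (F k i) x ^ 2) atTop
      (𝓝 (∫ x, ∑ j, ∑ i, g i j x ^ 2)) := by
    have h1 : ∀ k, ∫ x, ∑ j, ∑ i, pd j (F k i) x ^ 2 = ∑ j, ∑ i, ∫ x, pd j (F k i) x ^ 2 := by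
      intro k
      rw [integral_finsetSum _ fun j _ => integrable_finsetSum _ fun i _ =>
        (hpm k j i).integrable_sq]
      refine Finset.sum_congr rfl fun j _ => ?_
      rw [integral_finsetSum _ fun i _ => (hpm k j i).integrable_sq]
    have h2 : ∫ x, ∑ j, ∑ i, g i j x ^ 2 = ∑ j, ∑ i, ∫ x, g i j x ^ 2 := by
      rw [integral_finsetSum _ fun j _ => integrable_finsetSum _ fun i _ =>
        ((hf i).g2 j).integrable_sq]
      refine Finset.sum_congr rfl fun j _ => ?_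
      rw [integral_finsetSum _ fun i _ => ((hf i).g2 j).integrable_sq]
    rw [h2]
    simp only [h1]
    exact tendsto_finsetSum _ fun j _ => tendsto_finsetSum _ fun i _ =>
      tendsto_sq_int (fun k => hpm k j i) ((hf i).g2 j) (hF6 j i)
  set E := (∫ x, ∑ j, ∑ i, g i j x ^ 2) + 3 / 4 * ∫ x, FW A a f (fun i => g i 0) x with hEdef
  set Ek : ℕ → ℝ := fun k => (∫ x, ∑ j, ∑ i, pd j (F k i) x ^ 2) +
    3 / 4 * ∫ x, FW A a (F k) (fun i => pd 0 (F k i)) x with hEk
  have hEkl : Tendsto Ek atTop (𝓝 E) := hE.add (hFWl.const_mul (3 / 4))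
  have hcont : ∀ k, Continuous fun x => (∑ i, F k i x ^ 2) ^ p := by
    intro k
    refine Continuous.rpow_const ?_ (fun x => Or.inr hp.le)
    exact continuous_finsetSum _ fun i _ => ((hF1 k i).continuous.pow 2)
  have hcs : ∀ k, HasCompactSupport fun x => (∑ i, F k i x ^ 2) ^ p := by
    intro k
    refine HasCompactSupport.intro (K := ⋃ i, tsupport (F k i))
      (isCompact_iUnion fun i => hF2 k i) ?_
    intro x hx
    have : ∀ i, F k i x = 0 := by
      intro i
      by_contra h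
      exact hx (mem_iUnion.2 ⟨i, subset_tsupport _ h⟩)
    simp only [this]
    simp [Real.zero_rpow hp.ne']
  have hint : ∀ k, Integrable fun x => (∑ i, F k i x ^ 2) ^ p := fun k =>
    (hcont k).integrable_of_hasCompactSupport (hcs k)
  have hnn : ∀ k x, 0 ≤ (∑ i, F k i x ^ 2) ^ p := fun k x =>
    Real.rpow_nonneg (Finset.sum_nonneg fun i _ => sq_nonneg _) _
  have hnn' : ∀ x, 0 ≤ (∑ i, f i x ^ 2) ^ p := fun x =>
    Real.rpow_nonneg (Finset.sum_nonneg fun i _ => sq_nonneg _) _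
  have hbound : ∀ k : ℕ, ∫ x, (∑ i, F k i x ^ 2) ^ p ≤ Ek k / b := by
    intro k
    rw [le_div_iff₀' hb]
    exact (core6 m n (F k) (hF1 k) (hF2 k) (fun v => (hF3 k v).trans (hG v)) A a κ hκ0 hpoint).2
  have hEk0 : ∀ k, 0 ≤ Ek k / b := fun k =>
    (integral_nonneg fun x => hnn k x).trans (hbound k)
  have hlim : ∀ᵐ x, Tendsto (fun k => (∑ i, F k i x ^ 2) ^ p) atTop (𝓝 ((∑ i, f i x ^ 2) ^ p)) := by
    filter_upwards [hF4] with x hx
    exact (tendsto_finsetSum _ fun i _ => (hx i).pow 2).rpow_const (Or.inr hp.le)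
  have haesm : AEStronglyMeasurable (fun x => (∑ i, f i x ^ 2) ^ p) volume :=
    aestronglyMeasurable_of_tendsto_ae atTop (fun k => (hint k).aestronglyMeasurable) hlim
  have hEl0 : 0 ≤ E / b := ge_of_tendsto' (hEkl.div_const b) hEk0
  have hfatou : ∫⁻ x, ENNReal.ofReal ((∑ i, f i x ^ 2) ^ p) ≤ ENNReal.ofReal (E / b) := by
    calc ∫⁻ x, ENNReal.ofReal ((∑ i, f i x ^ 2) ^ p)
        = ∫⁻ x, liminf (fun k => ENNReal.ofReal ((∑ i, F k i x ^ 2) ^ p)) atTop := by
          apply lintegral_congr_ae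
          filter_upwards [hlim] with x hx
          exact ((ENNReal.continuous_ofReal.tendsto _).comp hx).liminf_eq.symm
      _ ≤ liminf (fun k => ∫⁻ x, ENNReal.ofReal ((∑ i, F k i x ^ 2) ^ p)) atTop :=
          lintegral_liminf_le' fun k => (hcont k).measurable.ennreal_ofReal.aemeasurable
      _ ≤ liminf (fun k : ℕ => ENNReal.ofReal (Ek k / b)) atTop := by
          refine liminf_le_liminf (Eventually.of_forall fun k => ?_)
          change ∫⁻ x, ENNReal.ofReal ((∑ i, F k i x ^ 2) ^ p) ≤ _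
          rw [← ofReal_integral_eq_lintegral_ofReal (hint k) (Eventually.of_forall (hnn k))]
          exact ENNReal.ofReal_le_ofReal (hbound k)
      _ = ENNReal.ofReal (E / b) := by
          apply Tendsto.liminf_eq
          exact (ENNReal.continuous_ofReal.tendsto _).comp (hEkl.div_const b)
  have hI : Integrable (fun x => (∑ i, f i x ^ 2) ^ p) := by
    refine ⟨haesm, ?_⟩
    rw [hasFiniteIntegral_iff_ofReal (Eventually.of_forall hnn')]
    exact lt_of_le_of_lt hfatou ENNReal.ofReal_lt_top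
  refine ⟨hI, A, a, hFWi, ?_⟩
  rw [← le_div_iff₀' hb, integral_eq_lintegral_of_nonneg_ae (Eventually.of_forall hnn') haesm]
  exact ENNReal.toReal_le_of_le_ofReal hEl0 hfatou

end Pool.Agent.W2helper1.LT
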