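import Pool.Agent.Helper717.LT.P_final_thm
import Pool.Agent.W2helper1.LT.Form
import Pool.Agent.W2helper1.LT.HReal

/-! The Fisher information of the slices and the final inequality. -/

set_option autoImplicit false

open MeasureTheory Set Filter Topology Real
open scoped Matrix ENNReal

namespace Pool.Agent.W2helper1.LT

open LTd

/-- The quantum Fisher information of `x ↦ Γ_x`, `Γ_x = ∑ u_n(x, ·) ⊗ ū_n(x, ·)` (the derivative of
`u_n` in the first variable is `v_n`). -/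
noncomputable def fisher {m N : ℕ} (u v : Fin N → (Fin (m + 1) → ℝ) → ℂ) (x : ℝ) : ℝ≥0∞ :=
  ⨆ (L : (Fin m → ℝ) → (Fin m → ℝ) → ℝ) (_ : IsKernel volume L),
    ENNReal.ofReal (form volume (fun n y => u n (Fin.cons x y : Fin (m + 1) → ℝ))
      (fun n y => v n (Fin.cons x y : Fin (m + 1) → ℝ)) L)

theorem slice_memLp {m : ℕ} {f : (Fin (m + 1) → ℝ) → ℂ} (hf : MemLp f 2 volume) :
    ∀ᵐ x : ℝ, MemLp (fun y : Fin m → ℝ => f (Fin.cons x y : Fin (m + 1) → ℝ)) 2 volume := by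
  have h := (volume_preserving_piFinSuccAbove (fun _ : Fin (m + 1) => ℝ) 0).symm
  have h1 : MemLp (fun p : ℝ × (Fin m → ℝ) =>
      f ((MeasurableEquiv.piFinSuccAbove (fun _ : Fin (m + 1) => ℝ) 0).symm p)) 2
      (volume : Measure (ℝ × (Fin m → ℝ))) := hf.comp_measurePreserving h
  have h2 : (fun p : ℝ × (Fin m → ℝ) =>
      f ((MeasurableEquiv.piFinSuccAbove (fun _ : Fin (m + 1) => ℝ) 0).symm p)) =
      fun p : ℝ × (Fin m → ℝ) => f (Fin.cons p.1 p.2 : Fin (m + 1) → ℝ) := by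
    funext p
    show f (Fin.insertNth 0 p.1 p.2) = f (Fin.cons p.1 p.2)
    rw [Fin.insertNth_zero']
  rw [h2, Measure.volume_eq_prod] at h1
  have h3 := h1.aestronglyMeasurable.prodMk_left
  have h4 := (memLp_two_iff_integrable_sq_norm h1.aestronglyMeasurable).1 h1
  have h5 := h4.prod_right_ae
  filter_upwards [h3, h5] with x hx1 hx2
  exact (memLp_two_iff_integrable_sq_norm hx1).2 hx2

theorem reim_slice {m N : ℕ} (u : Fin N → (Fin (m + 1) → ℝ) → ℂ) (x : ℝ) (i : Fin (N + N)) :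
    (reim (fun n (y : Fin m → ℝ) => u n (Fin.cons x y : Fin (m + 1) → ℝ)) i) =
      fun y : Fin m → ℝ => reim u i (Fin.cons x y : Fin (m + 1) → ℝ) := by
  funext y
  refine Fin.addCases (fun i => ?_) (fun i => ?_) i
  · rw [reim_l, reim_l]
  · rw [reim_r, reim_r]

theorem gam_sym {m n : ℕ} (f : Fin n → (Fin (m + 1) → ℝ) → ℝ) (x : ℝ) :
    (Gam (RS f) x - (1 / 2 : ℝ) • 1)ᵀ = Gam (RS f) x - (1 / 2 : ℝ) • 1 := by
  rw [Matrix.transpose_sub, Matrix.transpose_smul, Matrix.transpose_one]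
  congr 1
  ext i j
  show ∫ t in Iic x, ∫ y : Fin m → ℝ, f j (Fin.cons t y : Fin (m + 1) → ℝ) *
      f i (Fin.cons t y : Fin (m + 1) → ℝ) =
    ∫ t in Iic x, ∫ y : Fin m → ℝ, f i (Fin.cons t y : Fin (m + 1) → ℝ) *
      f j (Fin.cons t y : Fin (m + 1) → ℝ)
  congr 1
  funext t
  congr 1
  funext y
  ring

theorem FW_le_fisher {m N : ℕ} (A : Finset ℕ) (a : ℕ → ℝ) {u v : Fin N → (Fin (m + 1) → ℝ) → ℂ}
    (hu : ∀ n, MemLp (u n) 2 volume) (hv : ∀ n, MemLp (v n) 2 volume) :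
    ∀ᵐ x : ℝ, ENNReal.ofReal (FW A a (reim u) (reim v) x) ≤ fisher u v x := by
  have h1 : ∀ᵐ x : ℝ, ∀ n, MemLp (fun y : Fin m → ℝ => u n (Fin.cons x y : Fin (m + 1) → ℝ)) 2
      volume := ae_all_iff.2 fun n => slice_memLp (hu n)
  have h2 : ∀ᵐ x : ℝ, ∀ n, MemLp (fun y : Fin m → ℝ => v n (Fin.cons x y : Fin (m + 1) → ℝ)) 2
      volume := ae_all_iff.2 fun n => slice_memLp (hv n)
  filter_upwards [h1, h2] with x hx1 hx2
  set P : Mat (N + N) := pm A a (Gam (RS (reim u)) x - (1 / 2 : ℝ) • 1) with hPdef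
  have hP : Pᵀ = P := pm_sym A a (gam_sym (reim u) x)
  have h3 := form_eq (μ := (volume : Measure (Fin m → ℝ))) hx1 hx2 hP
  have h4 := tk_isKernel (μ := (volume : Measure (Fin m → ℝ))) hP (reim_memLp hx1)
  have e1 : gm volume (reim fun n (y : Fin m → ℝ) => u n (Fin.cons x y : Fin (m + 1) → ℝ))
      (reim fun n (y : Fin m → ℝ) => u n (Fin.cons x y : Fin (m + 1) → ℝ)) = RS (reim u) x := by
    ext i j
    show ∫ y, _ * _ = ∫ y, _
    rw [reim_slice, reim_slice]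
  have e2 : gm volume (reim fun n (y : Fin m → ℝ) => v n (Fin.cons x y : Fin (m + 1) → ℝ))
      (reim fun n (y : Fin m → ℝ) => u n (Fin.cons x y : Fin (m + 1) → ℝ)) =
      SF (reim v) (reim u) x := by
    ext i j
    show ∫ y, _ * _ = ∫ y, _
    rw [reim_slice, reim_slice]
  rw [e1, e2] at h3
  have h5 : FW A a (reim u) (reim v) x = form volume
      (fun n (y : Fin m → ℝ) => u n (Fin.cons x y : Fin (m + 1) → ℝ))
      (fun n (y : Fin m → ℝ) => v n (Fin.cons x y : Fin (m + 1) → ℝ))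
      (tk P (reim fun n (y : Fin m → ℝ) => u n (Fin.cons x y : Fin (m + 1) → ℝ))) := by
    rw [h3]
    rfl
  rw [h5]
  exact le_iSup₂_of_le _ h4 le_rfl

theorem bco_limit (m : ℕ) : bco (m / 2) (3 / 2) (π ^ 2 / 3) = Kcl (m + 1) := by
  have h1 := const_final m
  have hJ : 0 < JJ ((m : ℝ) / 2) (3 / 2) := by
    unfold JJ cc
    have h2 : (0 : ℝ) ≤ m := Nat.cast_nonneg m
    have h3 : 0 < (3 / 2 : ℝ) + m / 2 - 1 := by linarith
    have h4 : 0 < Gamma ((3 / 2 : ℝ) + 1 + m / 2) := Real.Gamma_pos_of_pos (by positivity)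
    have h5 : 0 < Gamma ((3 / 2 : ℝ) + 1) := Real.Gamma_pos_of_pos (by positivity)
    have h6 : (0 : ℝ) < 3 / 2 - 1 := by norm_num
    positivity
  have e0 : (π ^ 2 / 3 : ℝ) ^ ((3 / 2 : ℝ) - 1) =
      (π ^ 2 / 4 : ℝ) ^ ((3 / 2 : ℝ) - 1) * (4 / 3 : ℝ) ^ ((3 / 2 : ℝ) - 1) := by
    rw [← Real.mul_rpow (by positivity) (by norm_num)]
    congr 1
    ring
  unfold bco at h1 ⊢
  rw [e0, ← mul_assoc, Real.mul_rpow (by positivity) (by positivity), h1]
  have e1 : ((4 / 3 : ℝ) ^ ((3 / 2 : ℝ) - 1)) ^ (1 / ((3 / 2 : ℝ) + m / 2 - 1)) =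
      (4 / 3 : ℝ) ^ (1 / ((m : ℝ) + 1)) := by
    rw [← Real.rpow_mul (by norm_num)]
    congr 1
    have h2 : (0 : ℝ) ≤ m := Nat.cast_nonneg m
    have h3 : (3 / 2 : ℝ) + m / 2 - 1 = ((m : ℝ) + 1) / 2 := by ring
    rw [h3]
    field_simp
    ring
  rw [e1]
  have e2 : (3 / 4 : ℝ) ^ (1 / ((m : ℝ) + 1)) * (4 / 3 : ℝ) ^ (1 / ((m : ℝ) + 1)) = 1 := by
    rw [← Real.mul_rpow (by norm_num) (by norm_num)]
    norm_num
  calc (3 / 4 : ℝ) ^ (1 / ((m : ℝ) + 1)) * Kcl (m + 1) * (4 / 3 : ℝ) ^ (1 / ((m : ℝ) + 1)) =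
      ((3 / 4 : ℝ) ^ (1 / ((m : ℝ) + 1)) * (4 / 3 : ℝ) ^ (1 / ((m : ℝ) + 1))) * Kcl (m + 1) := by
        ring
    _ = Kcl (m + 1) := by rw [e2, one_mul]

theorem ofReal_integral_le {f : ℝ → ℝ} (hf : Integrable f) :
    ENNReal.ofReal (∫ x, f x) ≤ ∫⁻ x, ENNReal.ofReal (f x) := by
  have h1 : ∫ x, f x ≤ ∫ x, max (f x) 0 := integral_mono hf hf.pos_part fun x => le_max_left _ _
  calc ENNReal.ofReal (∫ x, f x) ≤ ENNReal.ofReal (∫ x, max (f x) 0) :=
        ENNReal.ofReal_le_ofReal h1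
    _ = ∫⁻ x, ENNReal.ofReal (max (f x) 0) :=
        ofReal_integral_eq_lintegral_ofReal hf.pos_part (Eventually.of_forall fun x => le_max_right _ _)
    _ = ∫⁻ x, ENNReal.ofReal (f x) := by
        congr 1
        funext x
        rcases le_total (f x) 0 with h | h
        · rw [max_eq_right h, ENNReal.ofReal_zero, ENNReal.ofReal_of_nonpos h]
        · rw [max_eq_left h]

/-- The inequality with the semiclassical constant in dimension `m + 1`. -/
theorem final_ineq (hA : Approx2) (hL : Lim) (m N : ℕ) (u : Fin N → (Fin (m + 1) → ℝ) → ℂ)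
    (g : Fin N → Fin (m + 1) → (Fin (m + 1) → ℝ) → ℂ) (hu : ∀ i, WGradC (u i) (g i))
    (ho : ∀ i j, ∫ x, (starRingEnd ℂ) (u i x) * u j x = if i = j then 1 else 0) :
    Integrable (fun x => (∑ i, ‖u i x‖ ^ 2) ^ (1 + 2 / ((m + 1 : ℕ) : ℝ))) ∧
    ENNReal.ofReal (Kcl (m + 1) * ∫ x, (∑ i, ‖u i x‖ ^ 2) ^ (1 + 2 / ((m + 1 : ℕ) : ℝ))) ≤
      ENNReal.ofReal (∑ i, ∑ k, ∫ x, ‖g i k x‖ ^ 2) +
        3 / 4 * ∫⁻ x, fisher u (fun n => g n 0) x := by
  have hsq : ∀ z : ℂ, ‖z‖ ^ 2 = z.re ^ 2 + z.im ^ 2 := by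
    intro z
    rw [Complex.sq_norm, Complex.normSq_apply]; ring
  let F : Fin (N + N) → (Fin (m + 1) → ℝ) → ℝ := reim u
  let G : Fin (N + N) → Fin (m + 1) → (Fin (m + 1) → ℝ) → ℝ := fun i k => reim (fun n => g n k) i
  have hFl : ∀ i, F (Fin.castAdd N i) = fun x => (u i x).re := fun i => funext fun x => reim_l u i x
  have hFr : ∀ i, F (Fin.natAdd N i) = fun x => (u i x).im := fun i => funext fun x => reim_r u i x
  have hGl : ∀ i, G (Fin.castAdd N i) = fun k x => (g i k x).re := fun i =>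
    funext fun k => funext fun x => reim_l _ i x
  have hGr : ∀ i, G (Fin.natAdd N i) = fun k x => (g i k x).im := fun i =>
    funext fun k => funext fun x => reim_r _ i x
  have hW : ∀ i, WGrad (F i) (G i) := by
    intro i
    refine Fin.addCases (fun i => ?_) (fun i => ?_) i
    · rw [hFl, hGl]
      exact (split_complex (hu i)).1
    · rw [hFr, hGr]
      exact (split_complex (hu i)).2
  have hG : ∀ v : Fin (N + N) → ℝ, ∫ x, (∑ i, v i * F i x) ^ 2 ≤ ∑ i, v i ^ 2 := by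
    intro v
    have h1 := gram_complex u (fun i => (hu i).f2) ho (fun i => v (Fin.castAdd N i))
      (fun i => v (Fin.natAdd N i))
    have h2 : ∀ x, ∑ i, v i * F i x = ∑ i : Fin N, (v (Fin.castAdd N i) * (u i x).re +
        v (Fin.natAdd N i) * (u i x).im) := by
      intro x
      rw [Fin.sum_univ_add, Finset.sum_add_distrib]
      simp only [hFl, hFr]
    have h3 : ∑ i, v i ^ 2 = ∑ i : Fin N, (v (Fin.castAdd N i) ^ 2 + v (Fin.natAdd N i) ^ 2) := by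
      rw [Fin.sum_univ_add, Finset.sum_add_distrib]
    simp only [h2]
    rw [h3]
    exact h1
  have hFs : ∀ x, ∑ i, F i x ^ 2 = ∑ i, ‖u i x‖ ^ 2 := by
    intro x
    rw [Fin.sum_univ_add, ← Finset.sum_add_distrib]
    simp only [hFl, hFr, hsq]
  have hGs : ∀ x, ∑ j, ∑ i, G i j x ^ 2 = ∑ i, ∑ j, ‖g i j x‖ ^ 2 := by
    intro x
    rw [Finset.sum_comm, Fin.sum_univ_add, ← Finset.sum_add_distrib]
    refine Finset.sum_congr rfl fun i _ => ?_
    rw [← Finset.sum_add_distrib]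
    simp only [hGl, hGr, hsq]
  have hI : ∀ i k, Integrable (fun x => ‖g i k x‖ ^ 2) := by
    intro i k
    have := (hu i).g2 k
    exact this.integrable_norm_pow two_ne_zero
  have hint : ∫ x, ∑ i, ∑ j, ‖g i j x‖ ^ 2 = ∑ i, ∑ k, ∫ x, ‖g i k x‖ ^ 2 := by
    rw [integral_finset_sum _ (fun i _ => integrable_finset_sum _ (fun k _ => hI i k))]
    refine Finset.sum_congr rfl fun i _ => ?_
    rw [integral_finset_sum _ (fun k _ => hI i k)]
  have hpp := final_thm_pp m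
  have key : ∀ κ : ℝ, 0 < κ → κ < π ^ 2 / 3 →
      Integrable (fun x => (∑ i, ‖u i x‖ ^ 2) ^ (1 + 2 / ((m + 1 : ℕ) : ℝ))) ∧
      ENNReal.ofReal (bco (m / 2) (3 / 2) κ *
        ∫ x, (∑ i, ‖u i x‖ ^ 2) ^ (1 + 2 / ((m + 1 : ℕ) : ℝ))) ≤
      ENNReal.ofReal (∑ i, ∑ k, ∫ x, ‖g i k x‖ ^ 2) +
        3 / 4 * ∫⁻ x, fisher u (fun n => g n 0) x := by
    intro κ h0 h1
    obtain ⟨hi, A, a, hFi, hle⟩ := hreal6 hA hL m (N + N) F G hW hG h0 h1
    simp only [hFs, hGs, hpp, hint] at hi hle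
    refine ⟨hi, ?_⟩
    refine (ENNReal.ofReal_le_ofReal hle).trans ?_
    refine ENNReal.ofReal_add_le.trans ?_
    refine add_le_add le_rfl ?_
    rw [ENNReal.ofReal_mul (by norm_num)]
    have e34 : ENNReal.ofReal (3 / 4) = 3 / 4 := by
      rw [ENNReal.ofReal_div_of_pos (by norm_num)]
      norm_num
    rw [e34]
    refine mul_le_mul_right ?_ _
    refine (ofReal_integral_le hFi).trans ?_
    refine lintegral_mono_ae ?_
    exact FW_le_fisher A a (fun n => (hu n).f2) (fun n => (hu n).g2 0)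
  have hpi : 0 < π ^ 2 / 3 := by positivity
  refine ⟨(key (π ^ 2 / 3 / 2) (by linarith) (by linarith)).1, ?_⟩
  -- the limit
  set I : ℝ := ∫ x, (∑ i, ‖u i x‖ ^ 2) ^ (1 + 2 / ((m + 1 : ℕ) : ℝ)) with hIdef
  have hm0 : (0 : ℝ) ≤ m := Nat.cast_nonneg m
  have hcont : Tendsto (fun κ : ℝ => ENNReal.ofReal (bco (m / 2) (3 / 2) κ * I))
      (𝓝[<] (π ^ 2 / 3)) (𝓝 (ENNReal.ofReal (Kcl (m + 1) * I))) := by
    rw [← bco_limit m]
    have h1 : ContinuousAt (fun κ : ℝ => bco ((m : ℝ) / 2) (3 / 2) κ) (π ^ 2 / 3) := by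
      unfold bco
      have h2 : ContinuousAt (fun κ : ℝ => JJ ((m : ℝ) / 2) (3 / 2) * κ ^ ((3 / 2 : ℝ) - 1))
          (π ^ 2 / 3) :=
        continuousAt_const.mul (Real.continuousAt_rpow_const _ _ (Or.inl hpi.ne'))
      refine h2.rpow_const (Or.inr ?_)
      have h3 : 0 < (3 / 2 : ℝ) + m / 2 - 1 := by linarith
      positivity
    have h2 : Tendsto (fun κ : ℝ => bco ((m : ℝ) / 2) (3 / 2) κ * I) (𝓝[<] (π ^ 2 / 3))
        (𝓝 (bco ((m : ℝ) / 2) (3 / 2) (π ^ 2 / 3) * I)) :=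
      (h1.tendsto.mono_left nhdsWithin_le_nhds).mul_const _
    exact (ENNReal.continuous_ofReal.tendsto _).comp h2
  refine le_of_tendsto hcont ?_
  filter_upwards [Ioo_mem_nhdsLT hpi] with κ hκ
  exact (key κ hκ.1 hκ.2).2

end Pool.Agent.W2helper1.LT
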