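import Pool.Agent.W2helper1.LT.Upper

/-! The one-dimensional inequality. -/

set_option autoImplicit false

open MeasureTheory Set Filter Topology Real
open scoped Matrix ENNReal

namespace Pool.Agent.W2helper1.LT

open LTd

/-- `|(√ρ)'|²`, where `(√ρ)' = Re ∑ ū_n u_n' / √ρ` -/
noncomputable def sqrtDer {N : ℕ} (u v : Fin N → (Fin 1 → ℝ) → ℂ) (x : Fin 1 → ℝ) : ℝ :=
  (∑ n, ((starRingEnd ℂ) (v n x) * u n x).re) ^ 2 / ∑ n, ‖u n x‖ ^ 2

theorem sqrtDer_nonneg {N : ℕ} (u v : Fin N → (Fin 1 → ℝ) → ℂ) (x : Fin 1 → ℝ) :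
    0 ≤ sqrtDer u v x := by
  unfold sqrtDer
  positivity

theorem sqrtDer_le {N : ℕ} (u v : Fin N → (Fin 1 → ℝ) → ℂ) (x : Fin 1 → ℝ) :
    sqrtDer u v x ≤ ∑ n, ‖v n x‖ ^ 2 := by
  unfold sqrtDer
  have hρ0 : 0 ≤ ∑ n, ‖u n x‖ ^ 2 := Finset.sum_nonneg fun n _ => by positivity
  have hv0 : 0 ≤ ∑ n, ‖v n x‖ ^ 2 := Finset.sum_nonneg fun n _ => by positivity
  rcases hρ0.eq_or_lt with h0 | hpos
  · rw [← h0, div_zero]
    exact hv0
  · rw [div_le_iff₀ hpos]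
    have h1 : |∑ n, ((starRingEnd ℂ) (v n x) * u n x).re| ≤ ∑ n, ‖v n x‖ * ‖u n x‖ := by
      refine (Finset.abs_sum_le_sum_abs _ _).trans (Finset.sum_le_sum fun n _ => ?_)
      refine (Complex.abs_re_le_norm _).trans_eq ?_
      rw [norm_mul, RCLike.norm_conj]
    have h2 : (∑ n, ‖v n x‖ * ‖u n x‖) ^ 2 ≤ (∑ n, ‖v n x‖ ^ 2) * ∑ n, ‖u n x‖ ^ 2 :=
      Finset.sum_mul_sq_le_sq_mul_sq _ _ _
    refine le_trans ?_ h2
    rw [← sq_abs]
    exact pow_le_pow_left₀ (abs_nonneg _) h1 2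

theorem sqrtDer_integrable {N : ℕ} {u v : Fin N → (Fin 1 → ℝ) → ℂ}
    (hu : ∀ n, MemLp (u n) 2 volume) (hv : ∀ n, MemLp (v n) 2 volume) :
    Integrable (sqrtDer u v) := by
  have hi : Integrable (fun x => ∑ n, ‖v n x‖ ^ 2) :=
    integrable_finsetSum _ fun n _ => (hv n).integrable_norm_pow two_ne_zero
  have hm : AEStronglyMeasurable (sqrtDer u v) volume := by
    unfold sqrtDer
    have h1 : AEStronglyMeasurable (fun x => ∑ n, ((starRingEnd ℂ) (v n x) * u n x).re)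
        (volume : Measure (Fin 1 → ℝ)) := by
      refine Finset.aestronglyMeasurable_fun_sum _ fun n _ => ?_
      exact Complex.continuous_re.comp_aestronglyMeasurable
        ((Complex.continuous_conj.comp_aestronglyMeasurable (hv n).aestronglyMeasurable).mul
          (hu n).aestronglyMeasurable)
    have h2 : AEStronglyMeasurable (fun x => ∑ n, ‖u n x‖ ^ 2)
        (volume : Measure (Fin 1 → ℝ)) := by
      refine Finset.aestronglyMeasurable_fun_sum _ fun n _ => ?_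
      exact ((hu n).aestronglyMeasurable.norm).pow 2
    exact ((h1.aemeasurable.pow_const 2).div h2.aemeasurable).aestronglyMeasurable
  refine hi.mono' hm (Eventually.of_forall fun x => ?_)
  rw [Real.norm_of_nonneg (sqrtDer_nonneg u v x)]
  exact sqrtDer_le u v x

theorem one_dim (hA : Approx2) (hL : Lim) (N : ℕ) (u : Fin N → (Fin 1 → ℝ) → ℂ)
    (g : Fin N → Fin 1 → (Fin 1 → ℝ) → ℂ) (hu : ∀ i, WGradC (u i) (g i))
    (ho : ∀ i j, ∫ x, (starRingEnd ℂ) (u i x) * u j x = if i = j then 1 else 0) :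
    π ^ 2 / 3 * ∫ x, (∑ i, ‖u i x‖ ^ 2) ^ 3 ≤
      (∑ i, ∫ x, ‖g i 0 x‖ ^ 2) + 3 * ∫ x, sqrtDer u (fun n => g n 0) x := by
  have h1 := (final_ineq hA hL 0 N u g hu ho).2
  have hK : Kcl (0 + 1) = π ^ 2 / 3 :=
    (bco_limit 0).symm.trans (T_zero_bco (by norm_num) (by positivity))
  have e1 : (fun x : Fin 1 → ℝ => (∑ i, ‖u i x‖ ^ 2) ^ (1 + 2 / ((0 + 1 : ℕ) : ℝ))) =
      fun x : Fin 1 → ℝ => (∑ i, ‖u i x‖ ^ 2) ^ 3 := by
    funext x
    have h2 : (1 + 2 / ((0 + 1 : ℕ) : ℝ)) = ((3 : ℕ) : ℝ) := by norm_num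
    rw [h2, Real.rpow_natCast]
  have e2 : ∑ i, ∑ k, ∫ x, ‖g i k x‖ ^ 2 = ∑ i, ∫ x, ‖g i 0 x‖ ^ 2 := by
    refine Finset.sum_congr rfl fun i _ => ?_
    exact Fin.sum_univ_one _
  have hDi := sqrtDer_integrable (fun n => (hu n).f2) (fun n => (hu n).g2 0)
  have hD := slice_int' hDi
  have key : ∀ f : (Fin 0 → ℝ) → ℝ, ∫ y, f y = f default := by
    intro f
    rw [MeasureTheory.Measure.volume_pi_eq_dirac (default : Fin 0 → ℝ), integral_dirac]
  have hcons : ∀ (x : ℝ) (y : Fin 0 → ℝ), (Fin.cons x y : Fin 1 → ℝ) = fun _ => x := by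
    intro x y
    funext i
    fin_cases i
    rfl
  simp only [key, hcons] at hD
  have h3 : ∫⁻ x, fisher u (fun n => g n 0) x ≤
      ENNReal.ofReal (4 * ∫ x, sqrtDer u (fun n => g n 0) x) := by
    rw [hD.2, ← integral_const_mul, ofReal_integral_eq_lintegral_ofReal (hD.1.const_mul 4)
      (Eventually.of_forall fun x => mul_nonneg (by norm_num) (sqrtDer_nonneg _ _ _))]
    exact lintegral_mono fun x => fisher_zero u (fun n => g n 0) x
  have hT0 : 0 ≤ ∑ i, ∫ x, ‖g i 0 x‖ ^ 2 := Finset.sum_nonneg fun i _ =>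
    integral_nonneg fun x => by positivity
  have hS0 : 0 ≤ ∫ x, sqrtDer u (fun n => g n 0) x := integral_nonneg fun x => sqrtDer_nonneg _ _ _
  have h4 : (3 / 4 : ℝ≥0∞) * ∫⁻ x, fisher u (fun n => g n 0) x ≤
      ENNReal.ofReal (3 * ∫ x, sqrtDer u (fun n => g n 0) x) := by
    have e34 : (3 / 4 : ℝ≥0∞) = ENNReal.ofReal (3 / 4) := by
      rw [ENNReal.ofReal_div_of_pos (by norm_num)]
      norm_num
    calc (3 / 4 : ℝ≥0∞) * ∫⁻ x, fisher u (fun n => g n 0) x ≤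
        (3 / 4 : ℝ≥0∞) * ENNReal.ofReal (4 * ∫ x, sqrtDer u (fun n => g n 0) x) :=
          mul_le_mul_right h3 _
      _ = ENNReal.ofReal (3 * ∫ x, sqrtDer u (fun n => g n 0) x) := by
          rw [e34, ← ENNReal.ofReal_mul (by norm_num)]
          congr 1
          ring
  simp only [e1, hK, e2] at h1
  have h5 := h1.trans (add_le_add le_rfl h4)
  rw [← ENNReal.ofReal_add hT0 (by positivity)] at h5
  exact (ENNReal.ofReal_le_ofReal_iff (by positivity)).1 h5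

end Pool.Agent.W2helper1.LT
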