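import Pool.Agent.W2helper1.LT.OneDim
import Pool.Agent.W2helper12.LT.Approx2
import Pool.Agent.W2helper54.LT.Lim

/-! The inequality for slices in an arbitrary coordinate direction. -/

set_option autoImplicit false

open MeasureTheory Set Filter Topology Real
open scoped Matrix ENNReal

namespace Pool.Agent.W2helper1.LT

open LTd

/-- the Fisher information of the slices orthogonal to the direction `k` -/
noncomputable def fisherk {m N : ℕ} (k : Fin (m + 1)) (u v : Fin N → (Fin (m + 1) → ℝ) → ℂ)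
    (x : ℝ) : ℝ≥0∞ :=
  ⨆ (L : (Fin m → ℝ) → (Fin m → ℝ) → ℝ) (_ : IsKernel volume L),
    ENNReal.ofReal (form volume (fun n y => u n (k.insertNth x y : Fin (m + 1) → ℝ))
      (fun n y => v n (k.insertNth x y : Fin (m + 1) → ℝ)) L)

/-- the permutation of the coordinates -/
def pe {m : ℕ} (k : Fin (m + 1)) : Fin (m + 1) ≃ Fin (m + 1) :=
  (finSuccEquiv' k).trans (finSuccEquiv' 0).symm

theorem pe_k {m : ℕ} (k : Fin (m + 1)) : pe k k = 0 := by
  simp [pe]

theorem pe_succAbove {m : ℕ} (k : Fin (m + 1)) (i : Fin m) : pe k (k.succAbove i) = i.succ := by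
  simp [pe]

theorem cons_pe {m : ℕ} (k : Fin (m + 1)) (x : ℝ) (y : Fin m → ℝ) :
    (fun i => (Fin.cons x y : Fin (m + 1) → ℝ) (pe k i)) = (k.insertNth x y : Fin (m + 1) → ℝ) := by
  funext i
  rcases Fin.eq_self_or_eq_succAbove k i with h | ⟨j, h⟩
  · rw [h, pe_k]
    simp
  · rw [h, pe_succAbove]
    simp

/-- the permutation as a measurable equivalence -/
def pme {m : ℕ} (k : Fin (m + 1)) : (Fin (m + 1) → ℝ) ≃ᵐ (Fin (m + 1) → ℝ) :=
  MeasurableEquiv.piCongrLeft (fun _ => ℝ) (pe k).symm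

theorem pme_apply {m : ℕ} (k : Fin (m + 1)) (z : Fin (m + 1) → ℝ) :
    pme k z = fun i => z (pe k i) := by
  funext i
  have h := MeasurableEquiv.piCongrLeft_apply_apply (β := fun _ : Fin (m + 1) => ℝ) (pe k).symm z
    (pe k i)
  rw [Equiv.symm_apply_apply] at h
  exact h

theorem pme_mp {m : ℕ} (k : Fin (m + 1)) : MeasurePreserving (pme k) volume volume :=
  volume_measurePreserving_piCongrLeft (fun _ : Fin (m + 1) => ℝ) (pe k).symm

theorem pme_symm_apply {m : ℕ} (k : Fin (m + 1)) (z : Fin (m + 1) → ℝ) :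
    (pme k).symm z = fun i => z ((pe k).symm i) := by
  apply (pme k).injective
  rw [MeasurableEquiv.apply_symm_apply, pme_apply]
  funext i
  simp

/-- the permutation as a linear equivalence -/
noncomputable def ple {m : ℕ} (e : Fin (m + 1) ≃ Fin (m + 1)) : (Fin (m + 1) → ℝ) ≃L[ℝ] (Fin (m + 1) → ℝ) :=
  (LinearEquiv.funCongrLeft ℝ ℝ e).toContinuousLinearEquiv

theorem ple_apply {m : ℕ} (e : Fin (m + 1) ≃ Fin (m + 1)) (z : Fin (m + 1) → ℝ) :
    ple e z = fun i => z (e i) := by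
  funext i
  rfl

theorem pd_comp {m : ℕ} (e : Fin (m + 1) ≃ Fin (m + 1)) {φ : (Fin (m + 1) → ℝ) → ℝ}
    (hφ : Differentiable ℝ φ) (i : Fin (m + 1)) (z : Fin (m + 1) → ℝ) :
    pd i (fun z => φ fun j => z (e j)) z = pd (e.symm i) φ (fun j => z (e j)) := by
  have h1 : (fun z : Fin (m + 1) → ℝ => φ fun j => z (e j)) = φ ∘ (ple e) := by
    funext z
    rw [Function.comp_apply, ple_apply]
  have h2 : HasFDerivAt (φ ∘ (ple e)) ((fderiv ℝ φ (ple e z)).comp
      ((ple e : (Fin (m + 1) → ℝ) →L[ℝ] (Fin (m + 1) → ℝ)))) z :=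
    (hφ _).hasFDerivAt.comp z (ple e).hasFDerivAt
  unfold pd
  rw [h1, h2.fderiv, ContinuousLinearMap.comp_apply, ple_apply]
  congr 1
  show ple e (Pi.single i 1) = _
  rw [ple_apply]
  funext j
  by_cases h : e j = i
  · rw [h, Pi.single_eq_same]
    have h3 : j = e.symm i := by rw [← h, Equiv.symm_apply_apply]
    rw [h3, Pi.single_eq_same]
  · rw [Pi.single_eq_of_ne h, Pi.single_eq_of_ne]
    intro h3
    exact h (by rw [h3, Equiv.apply_symm_apply])

theorem wgrad_perm {m : ℕ} (k : Fin (m + 1)) {u : (Fin (m + 1) → ℝ) → ℂ}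
    {g : Fin (m + 1) → (Fin (m + 1) → ℝ) → ℂ} (h : WGradC u g) :
    WGradC (fun z => u fun i => z (pe k i)) (fun j z => g ((pe k).symm j) fun i => z (pe k i)) := by
  have hcomp : ∀ f : (Fin (m + 1) → ℝ) → ℂ, MemLp f 2 volume →
      MemLp (fun z : Fin (m + 1) → ℝ => f fun i => z (pe k i)) 2 volume := by
    intro f hf
    have h1 := hf.comp_measurePreserving (pme_mp k)
    have h2 : f ∘ (pme k) = fun z : Fin (m + 1) → ℝ => f fun i => z (pe k i) := by
      funext z
      rw [Function.comp_apply, pme_apply]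
    rwa [h2] at h1
  refine ⟨hcomp u h.f2, fun j => hcomp _ (h.g2 _), fun j φ hφ hφc => ?_⟩
  -- the test function
  set ψ : (Fin (m + 1) → ℝ) → ℝ := fun z => φ fun i => z ((pe k).symm i) with hψ
  have hψs : ContDiff ℝ (⊤ : ℕ∞) ψ := by
    have h1 : ψ = φ ∘ (ple (pe k).symm) := by
      funext z
      rw [Function.comp_apply, ple_apply]
    rw [h1]
    exact hφ.comp (ple (pe k).symm).contDiff
  have hψc : HasCompactSupport ψ := by
    have h1 : ψ = φ ∘ (ple (pe k).symm) := by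
      funext z
      rw [Function.comp_apply, ple_apply]
    rw [h1]
    exact hφc.comp_homeomorph (ple (pe k).symm).toHomeomorph
  have h1 := h.weak ((pe k).symm j) ψ hψs hψc
  have hd : Differentiable ℝ φ := hφ.differentiable (by simp)
  have e1 : ∀ w : Fin (m + 1) → ℝ, pd ((pe k).symm j) ψ (fun i => w (pe k i)) = pd j φ w := by
    intro w
    rw [hψ, pd_comp (pe k).symm hd]
    simp
  have e2 : ∀ w : Fin (m + 1) → ℝ, ψ (fun i => w (pe k i)) = φ w := by
    intro w
    show φ _ = φ w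
    congr 1
    funext i
    simp
  have i1 := (pme_mp k).integral_comp' (fun z => u z * (pd ((pe k).symm j) ψ z : ℂ))
  have i2 := (pme_mp k).integral_comp' (fun z => g ((pe k).symm j) z * (ψ z : ℂ))
  simp only [pme_apply, e1, e2] at i1 i2
  rw [i1, i2]
  exact h1

theorem final_k (m N : ℕ) (u : Fin N → (Fin (m + 1) → ℝ) → ℂ)
    (g : Fin N → Fin (m + 1) → (Fin (m + 1) → ℝ) → ℂ) (hu : ∀ i, WGradC (u i) (g i))
    (ho : ∀ i j, ∫ x, (starRingEnd ℂ) (u i x) * u j x = if i = j then 1 else 0)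
    (k : Fin (m + 1)) :
    (∫⁻ x, fisherk k u (fun n => g n k) x ≤ ENNReal.ofReal (4 * ∑ n, ∫ x, ‖g n k x‖ ^ 2)) ∧
    ENNReal.ofReal (Kcl (m + 1) * ∫ x, (∑ i, ‖u i x‖ ^ 2) ^ (1 + 2 / ((m + 1 : ℕ) : ℝ))) ≤
      ENNReal.ofReal (∑ i, ∑ k, ∫ x, ‖g i k x‖ ^ 2) +
        3 / 4 * ∫⁻ x, fisherk k u (fun n => g n k) x := by
  set u' : Fin N → (Fin (m + 1) → ℝ) → ℂ := fun n z => u n fun i => z (pe k i) with hu'
  set g' : Fin N → Fin (m + 1) → (Fin (m + 1) → ℝ) → ℂ :=
    fun n j z => g n ((pe k).symm j) fun i => z (pe k i) with hg'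
  have hW : ∀ i, WGradC (u' i) (g' i) := fun i => wgrad_perm k (hu i)
  have hs : (pe k).symm 0 = k := by
    rw [← pe_k k, Equiv.symm_apply_apply]
  have hint : ∀ f : (Fin (m + 1) → ℝ) → ℂ, ∫ z : Fin (m + 1) → ℝ, f (fun i => z (pe k i)) = ∫ z, f z := by
    intro f
    have h1 := (pme_mp k).integral_comp' f
    simp only [pme_apply] at h1
    exact h1
  have hint' : ∀ f : (Fin (m + 1) → ℝ) → ℝ, ∫ z : Fin (m + 1) → ℝ, f (fun i => z (pe k i)) = ∫ z, f z := by
    intro f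
    have h1 := (pme_mp k).integral_comp' f
    simp only [pme_apply] at h1
    exact h1
  have ho' : ∀ i j, ∫ x, (starRingEnd ℂ) (u' i x) * u' j x = if i = j then 1 else 0 := by
    intro i j
    rw [← ho i j]
    exact hint fun z => (starRingEnd ℂ) (u i z) * u j z
  have hF : ∀ x, fisher u' (fun n => g' n 0) x = fisherk k u (fun n => g n k) x := by
    intro x
    unfold fisher fisherk
    have e1 : (fun n (y : Fin m → ℝ) => u' n (Fin.cons x y : Fin (m + 1) → ℝ)) =
        fun n (y : Fin m → ℝ) => u n (k.insertNth x y : Fin (m + 1) → ℝ) := by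
      funext n y
      rw [hu', ← cons_pe]
    have e2 : (fun n (y : Fin m → ℝ) => g' n 0 (Fin.cons x y : Fin (m + 1) → ℝ)) =
        fun n (y : Fin m → ℝ) => g n k (k.insertNth x y : Fin (m + 1) → ℝ) := by
      funext n y
      rw [hg', ← cons_pe]
      simp only [hs]
    rw [e1, e2]
  constructor
  · have h1 := lintegral_fisher_le (fun n => (hW n).f2) (fun n => (hW n).g2 0)
    simp only [hF] at h1
    refine h1.trans_eq ?_
    congr 2
    refine Finset.sum_congr rfl fun n _ => ?_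
    have h2 := hint' fun z => ‖g n k z‖ ^ 2
    rw [← h2, hg']
    simp only [hs]
  · have h1 := (final_ineq Pool.Agent.W2helper12.LT.approx2 Pool.Agent.W2helper54.LT.lim m N u' g'
      hW ho').2
    simp only [hF] at h1
    have e1 : ∫ x, (∑ i, ‖u' i x‖ ^ 2) ^ (1 + 2 / ((m + 1 : ℕ) : ℝ)) =
        ∫ x, (∑ i, ‖u i x‖ ^ 2) ^ (1 + 2 / ((m + 1 : ℕ) : ℝ)) :=
      hint' fun z => (∑ i, ‖u i z‖ ^ 2) ^ (1 + 2 / ((m + 1 : ℕ) : ℝ))
    have e2 : ∑ i, ∑ k, ∫ x, ‖g' i k x‖ ^ 2 = ∑ i, ∑ k, ∫ x, ‖g i k x‖ ^ 2 := by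
      refine Finset.sum_congr rfl fun i _ => ?_
      rw [← Equiv.sum_comp (pe k).symm fun j => ∫ x, ‖g i j x‖ ^ 2]
      refine Finset.sum_congr rfl fun j _ => ?_
      exact hint' fun z => ‖g i ((pe k).symm j) z‖ ^ 2
    rw [e1, e2] at h1
    exact h1

end Pool.Agent.W2helper1.LT
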