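import Mathlib

/-!
# The kinetic energy inequality with the semiclassical constant and a Fisher information term

Definitions and the analytic pieces of the proof.  Matrix notation: `R = ∫ w wᵀ`, `S = ∫ w' wᵀ`,
`Q = ∫ w' w'ᵀ` for the slices, `B(x) = ∫_{t ≤ x} R - 1/2`.  Calibration:
`Φ = - tr (R² g(B))`, `g(s) = log ((1/2 + s) / (1/2 - s))`.
-/

set_option autoImplicit false

open MeasureTheory Set Real

namespace Pool.Agent.W2helper1.LT

/-- the function of the calibration -/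
noncomputable def g (s : ℝ) : ℝ := Real.log ((1 / 2 + s) / (1 / 2 - s))

/-- its divided differences -/
noncomputable def dg (s r : ℝ) : ℝ := if s = r then 1 / (1 / 4 - s ^ 2) else (g s - g r) / (s - r)

/-- piece T1 -/
def T1 : Prop := ∀ a b : ℝ, Integrable (fun w : ℝ => Real.tanh (w - b) - Real.tanh (w - a)) ∧
  ∫ w : ℝ, (Real.tanh (w - b) - Real.tanh (w - a)) = 2 * (a - b)

/-- piece J2 -/
def J2 : Prop := Integrable (fun w : ℝ => (w / Real.sinh w) ^ 2) ∧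
  ∫ w : ℝ, (w / Real.sinh w) ^ 2 = π ^ 2 / 3

/-- piece J0 -/
def J0 : Prop := Integrable (fun w : ℝ => w / (Real.sinh w * Real.cosh w)) ∧
  ∫ w : ℝ, w / (Real.sinh w * Real.cosh w) = π ^ 2 / 4

/-- piece KP: positivity of the kernel -/
def KP : Prop := ∀ (n : ℕ) (e c : Fin n → ℝ), (∀ i, |e i| < 1 / 2) →
  0 ≤ ∑ i, ∑ j, c i * c j * (dg (e i) (e j) - (g (e i) ^ 2 + g (e j) ^ 2) / 2 - π ^ 2 / 3)

/-- divided differences of a polynomial -/
noncomputable def dP (P : Polynomial ℝ) (s r : ℝ) : ℝ :=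
  P.sum fun k a => a * ∑ l ∈ Finset.range k, s ^ l * r ^ (k - 1 - l)

/-- piece Apx: polynomial approximation of the scaled function `l g(l s)` -/
def Apx : Prop := ∀ l ε : ℝ, 0 < l → l < 1 → 0 < ε → ∃ P : Polynomial ℝ,
  ∀ s ∈ Icc (-(1 / 2) : ℝ) (1 / 2), ∀ r ∈ Icc (-(1 / 2) : ℝ) (1 / 2),
    |dP P s r - l ^ 2 * dg (l * s) (l * r)| ≤ ε ∧ |P.eval s ^ 2 - (l * g (l * s)) ^ 2| ≤ ε

end Pool.Agent.W2helper1.LT
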