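import Pool.Agent.W2helper1.LT.Fisher

/-! Upper bounds for the Fisher information. -/

set_option autoImplicit false

open MeasureTheory Set Filter Topology Real
open scoped Matrix ENNReal

namespace Pool.Agent.W2helper1.LT

open LTd

section
variable {Y : Type*} [MeasurableSpace Y] {μ : Measure Y} [SFinite μ]

/-- Cauchy–Schwarz -/
theorem cs_int {a : Y → ℝ} {b : Y → ℂ} (ha : MemLp a 2 μ) (hb : MemLp b 2 μ) :
    ‖∫ z, (a z : ℂ) * b z ∂μ‖ ^ 2 ≤ (∫ z, a z ^ 2 ∂μ) * ∫ z, ‖b z‖ ^ 2 ∂μ := by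
  have hia : Integrable (fun z => a z ^ 2) μ := ha.integrable_sq
  have hib : Integrable (fun z => ‖b z‖ ^ 2) μ := hb.integrable_norm_pow two_ne_zero
  have hA : 0 ≤ ∫ z, a z ^ 2 ∂μ := integral_nonneg fun z => sq_nonneg _
  have hB : 0 ≤ ∫ z, ‖b z‖ ^ 2 ∂μ := integral_nonneg fun z => sq_nonneg _
  have h1 : ‖∫ z, (a z : ℂ) * b z ∂μ‖ ≤ ∫ z, |a z| * ‖b z‖ ∂μ := by
    refine (norm_integral_le_integral_norm _).trans_eq ?_
    congr 1
    funext z
    rw [norm_mul, Complex.norm_real, Real.norm_eq_abs]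
  have hiab : Integrable (fun z => |a z| * ‖b z‖) μ := by
    have h2 : MemLp (fun z => |a z|) 2 μ := ha.abs
    exact h2.integrable_mul hb.norm
  have h2 : ∀ t : ℝ, 0 ≤ (∫ z, a z ^ 2 ∂μ) * (t * t) + (-2 * ∫ z, |a z| * ‖b z‖ ∂μ) * t +
      ∫ z, ‖b z‖ ^ 2 ∂μ := by
    intro t
    have h3 : 0 ≤ ∫ z, (|a z| * t - ‖b z‖) ^ 2 ∂μ := integral_nonneg fun z => sq_nonneg _
    have h4 : (fun z => (|a z| * t - ‖b z‖) ^ 2) =
        fun z => a z ^ 2 * (t * t) + (-2 * t) * (|a z| * ‖b z‖) + ‖b z‖ ^ 2 := by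
      funext z
      have h5 : |a z| ^ 2 = a z ^ 2 := sq_abs _
      rw [← h5]
      ring
    have i1 : Integrable (fun z => a z ^ 2 * (t * t)) μ := hia.mul_const _
    have i2 : Integrable (fun z => (-2 * t) * (|a z| * ‖b z‖)) μ := hiab.const_mul _
    have i3 : Integrable (fun z => a z ^ 2 * (t * t) + (-2 * t) * (|a z| * ‖b z‖)) μ := i1.add i2
    rw [h4, integral_add i3 hib, integral_add i1 i2, integral_mul_const,
      integral_const_mul] at h3
    linarith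
  have h3 := discrim_le_zero h2
  unfold discrim at h3
  have h4 : ‖∫ z, (a z : ℂ) * b z ∂μ‖ ^ 2 ≤ (∫ z, |a z| * ‖b z‖ ∂μ) ^ 2 :=
    pow_le_pow_left₀ (norm_nonneg _) h1 2
  nlinarith

theorem kernel_memLp {L : Y → Y → ℝ} (hL : IsKernel μ L) {u : Y → ℂ} (hu : MemLp u 2 μ) :
    MemLp (fun y => ∫ z, (L y z : ℂ) * u z ∂μ) 2 μ := by
  have hm1 : AEStronglyMeasurable (fun p : Y × Y => ((L p.1 p.2 : ℝ) : ℂ)) (μ.prod μ) :=
    Complex.continuous_ofReal.comp_aestronglyMeasurable hL.1.aestronglyMeasurable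
  have hm2 : AEStronglyMeasurable (fun p : Y × Y => u p.2) (μ.prod μ) :=
    hu.aestronglyMeasurable.comp_snd
  have hm : AEStronglyMeasurable (fun y => ∫ z, (L y z : ℂ) * u z ∂μ) μ :=
    (hm1.mul hm2).integral_prod_right'
  rw [memLp_two_iff_integrable_sq_norm hm]
  have hsq : Integrable (fun p : Y × Y => L p.1 p.2 ^ 2) (μ.prod μ) := hL.1.integrable_sq
  have hdom : Integrable (fun y => (∫ z, L y z ^ 2 ∂μ) * ∫ z, ‖u z‖ ^ 2 ∂μ) μ :=
    hsq.integral_prod_left.mul_const _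
  refine hdom.mono' ((hm.norm).pow 2) ?_
  have h1 : ∀ᵐ y ∂μ, AEStronglyMeasurable (fun z => L y z) μ :=
    hL.1.aestronglyMeasurable.prodMk_left
  filter_upwards [h1, hsq.prod_right_ae] with y hy1 hy2
  have hy : MemLp (fun z => L y z) 2 μ := (memLp_two_iff_integrable_sq hy1).2 hy2
  have h2 := cs_int hy hu
  rw [Real.norm_of_nonneg (by positivity)]
  exact h2

theorem form_le {N : ℕ} {u v : Fin N → Y → ℂ} (hu : ∀ n, MemLp (u n) 2 μ)
    (hv : ∀ n, MemLp (v n) 2 μ) {L : Y → Y → ℝ} (hL : IsKernel μ L) :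
    form μ u v L ≤ 4 * ∑ n, ∫ y, ‖v n y‖ ^ 2 ∂μ := by
  unfold form
  rw [Finset.mul_sum]
  refine Finset.sum_le_sum fun n _ => ?_
  have hw := kernel_memLp hL (hu n)
  set w : Y → ℂ := fun y => ∫ z, (L y z : ℂ) * u n z ∂μ with hwdef
  have hi : Integrable (fun y => (starRingEnd ℂ) (v n y) * w y) μ :=
    ((hv n).star).integrable_mul hw
  have hiw : Integrable (fun y => ‖w y‖ ^ 2) μ := hw.integrable_norm_pow two_ne_zero
  have hiv : Integrable (fun y => ‖v n y‖ ^ 2) μ := (hv n).integrable_norm_pow two_ne_zero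
  have e1 : (∫ y, (starRingEnd ℂ) (v n y) * w y ∂μ).re =
      ∫ y, ((starRingEnd ℂ) (v n y) * w y).re ∂μ := (integral_re hi).symm
  have i1 : Integrable (fun y => 4 * ((starRingEnd ℂ) (v n y) * w y).re) μ := hi.re.const_mul 4
  have e2 := integral_sub i1 hiw
  rw [integral_const_mul] at e2
  show 4 * (∫ y, (starRingEnd ℂ) (v n y) * w y ∂μ).re - ∫ y, ‖w y‖ ^ 2 ∂μ ≤ _
  rw [e1, ← e2, ← integral_const_mul]
  refine integral_mono (i1.sub hiw) (hiv.const_mul 4) fun y => ?_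
  show 4 * ((starRingEnd ℂ) (v n y) * w y).re - ‖w y‖ ^ 2 ≤ 4 * ‖v n y‖ ^ 2
  have h1 : ((starRingEnd ℂ) (v n y) * w y).re ≤ ‖v n y‖ * ‖w y‖ := by
    refine (Complex.re_le_norm _).trans_eq ?_
    rw [norm_mul, RCLike.norm_conj]
  nlinarith [sq_nonneg (2 * ‖v n y‖ - ‖w y‖)]

end

theorem fisher_le {m N : ℕ} {u v : Fin N → (Fin (m + 1) → ℝ) → ℂ}
    (hu : ∀ n, MemLp (u n) 2 volume) (hv : ∀ n, MemLp (v n) 2 volume) :
    ∀ᵐ x : ℝ, fisher u v x ≤ ENNReal.ofReal (4 * ∑ n, ∫ y : Fin m → ℝ,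
      ‖v n (Fin.cons x y : Fin (m + 1) → ℝ)‖ ^ 2) := by
  have h1 : ∀ᵐ x : ℝ, ∀ n, MemLp (fun y : Fin m → ℝ => u n (Fin.cons x y : Fin (m + 1) → ℝ)) 2
      volume := ae_all_iff.2 fun n => slice_memLp (hu n)
  have h2 : ∀ᵐ x : ℝ, ∀ n, MemLp (fun y : Fin m → ℝ => v n (Fin.cons x y : Fin (m + 1) → ℝ)) 2
      volume := ae_all_iff.2 fun n => slice_memLp (hv n)
  filter_upwards [h1, h2] with x hx1 hx2
  refine iSup₂_le fun L hL => ENNReal.ofReal_le_ofReal ?_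
  exact form_le hx1 hx2 hL

theorem slice_int' {m : ℕ} {f : (Fin (m + 1) → ℝ) → ℝ} (hf : Integrable f) :
    Integrable (fun x : ℝ => ∫ y : Fin m → ℝ, f (Fin.cons x y : Fin (m + 1) → ℝ)) ∧
    ∫ z, f z = ∫ x : ℝ, ∫ y : Fin m → ℝ, f (Fin.cons x y : Fin (m + 1) → ℝ) := by
  have h := (volume_preserving_piFinSuccAbove (fun _ : Fin (m + 1) => ℝ) 0).symm
  have hi2 : Integrable (fun p : ℝ × (Fin m → ℝ) =>
      f ((MeasurableEquiv.piFinSuccAbove (fun _ : Fin (m + 1) => ℝ) 0).symm p)) :=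
    (h.integrable_comp_emb (MeasurableEquiv.measurableEmbedding _)).2 hf
  have e : (fun p : ℝ × (Fin m → ℝ) =>
      f ((MeasurableEquiv.piFinSuccAbove (fun _ : Fin (m + 1) => ℝ) 0).symm p)) =
      fun p : ℝ × (Fin m → ℝ) => f (Fin.cons p.1 p.2 : Fin (m + 1) → ℝ) := by
    funext p
    show f (Fin.insertNth 0 p.1 p.2) = f (Fin.cons p.1 p.2)
    rw [Fin.insertNth_zero']
  have h3 := h.integral_comp' f
  rw [e] at hi2
  have h4 : ∫ z, f z = ∫ p : ℝ × (Fin m → ℝ), f (Fin.cons p.1 p.2 : Fin (m + 1) → ℝ) := by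
    rw [← h3]
    exact congrArg (fun F : ℝ × (Fin m → ℝ) → ℝ => ∫ p, F p) e
  rw [Measure.volume_eq_prod] at hi2 h4
  exact ⟨hi2.integral_prod_left, h4.trans (integral_prod _ hi2)⟩

/-- The Fisher information is at most four times the kinetic energy in the first direction. -/
theorem lintegral_fisher_le {m N : ℕ} {u v : Fin N → (Fin (m + 1) → ℝ) → ℂ}
    (hu : ∀ n, MemLp (u n) 2 volume) (hv : ∀ n, MemLp (v n) 2 volume) :
    ∫⁻ x, fisher u v x ≤ ENNReal.ofReal (4 * ∑ n, ∫ x, ‖v n x‖ ^ 2) := by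
  have hi : ∀ n, Integrable (fun z => ‖v n z‖ ^ 2) := fun n =>
    (hv n).integrable_norm_pow two_ne_zero
  have hs := fun n => slice_int' (hi n)
  have h1 : ∫ x : ℝ, 4 * ∑ n, ∫ y : Fin m → ℝ, ‖v n (Fin.cons x y : Fin (m + 1) → ℝ)‖ ^ 2 =
      4 * ∑ n, ∫ x, ‖v n x‖ ^ 2 := by
    rw [integral_const_mul, integral_finsetSum _ fun n _ => (hs n).1]
    congr 1
    exact Finset.sum_congr rfl fun n _ => ((hs n).2).symm
  have hI : Integrable fun x : ℝ => 4 * ∑ n, ∫ y : Fin m → ℝ,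
      ‖v n (Fin.cons x y : Fin (m + 1) → ℝ)‖ ^ 2 :=
    (integrable_finsetSum _ fun n _ => (hs n).1).const_mul 4
  rw [← h1, ofReal_integral_eq_lintegral_ofReal hI (Eventually.of_forall fun x => by positivity)]
  exact lintegral_mono_ae (fisher_le hu hv)

/-- In dimension one the Fisher information is `ρ'² / ρ`, `ρ' = 2 Re ∑ ū_n v_n`. -/
theorem fisher_zero {N : ℕ} (u v : Fin N → (Fin 1 → ℝ) → ℂ) (x : ℝ) :
    fisher u v x ≤ ENNReal.ofReal (4 * ((∑ n, ((starRingEnd ℂ) (v n fun _ => x) *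
      u n fun _ => x).re) ^ 2 / ∑ n, ‖u n fun _ => x‖ ^ 2)) := by
  refine iSup₂_le fun L _ => ENNReal.ofReal_le_ofReal ?_
  have key : ∀ f : (Fin 0 → ℝ) → ℂ, ∫ y, f y = f default := by
    intro f
    rw [MeasureTheory.Measure.volume_pi_eq_dirac (default : Fin 0 → ℝ), integral_dirac]
  have key' : ∀ f : (Fin 0 → ℝ) → ℝ, ∫ y, f y = f default := by
    intro f
    rw [MeasureTheory.Measure.volume_pi_eq_dirac (default : Fin 0 → ℝ), integral_dirac]
  have hcons : ∀ y : Fin 0 → ℝ, (Fin.cons x y : Fin 1 → ℝ) = fun _ => x := by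
    intro y
    funext i
    fin_cases i
    rfl
  unfold form
  simp only [key, key', hcons]
  set ℓ : ℝ := L default default with hℓ
  set b : ℝ := ∑ n, ((starRingEnd ℂ) (v n fun _ => x) * u n fun _ => x).re with hb
  set ρ : ℝ := ∑ n, ‖u n fun _ => x‖ ^ 2 with hρ
  have h1 : ∑ n, (4 * ((starRingEnd ℂ) (v n fun _ => x) * ((ℓ : ℂ) * u n fun _ => x)).re -
      ‖(ℓ : ℂ) * u n fun _ => x‖ ^ 2) = 4 * ℓ * b - ℓ ^ 2 * ρ := by
    rw [hb, hρ, Finset.mul_sum, Finset.mul_sum, ← Finset.sum_sub_distrib]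
    refine Finset.sum_congr rfl fun n _ => ?_
    have h2 : (starRingEnd ℂ) (v n fun _ => x) * ((ℓ : ℂ) * u n fun _ => x) =
        (ℓ : ℂ) * ((starRingEnd ℂ) (v n fun _ => x) * u n fun _ => x) := by ring
    rw [h2, Complex.re_ofReal_mul, norm_mul, mul_pow, Complex.norm_real, Real.norm_eq_abs, sq_abs]
    ring
  rw [h1]
  have hρ0 : 0 ≤ ρ := Finset.sum_nonneg fun n _ => by positivity
  rcases hρ0.eq_or_lt with h0 | hpos
  · have h2 : ∀ n, u n (fun _ => x) = 0 := by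
      intro n
      have h3 : ∑ n, ‖u n fun _ => x‖ ^ 2 = 0 := by
        rw [← hρ]
        exact h0.symm
      have h4 := (Finset.sum_eq_zero_iff_of_nonneg (s := Finset.univ)
        (f := fun n => ‖u n fun _ => x‖ ^ 2) fun n _ => by positivity).1 h3 n (Finset.mem_univ n)
      simpa using h4
    have h3 : b = 0 := by
      rw [hb]
      refine Finset.sum_eq_zero fun n _ => ?_
      rw [h2 n]
      simp
    rw [h3, ← h0]
    simp
  · have h2 : 4 * (b ^ 2 / ρ) - (4 * ℓ * b - ℓ ^ 2 * ρ) = (2 * b - ℓ * ρ) ^ 2 / ρ := by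
      field_simp
      ring
    have h3 : 0 ≤ (2 * b - ℓ * ρ) ^ 2 / ρ := by positivity
    linarith

end Pool.Agent.W2helper1.LT
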